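import Pool.Agent.Lib.MP_e70876_an.Core

/-!
The system in an abstract Hilbert space with an orthonormal basis indexed by the integers:
construction of the biorthogonal functionals and hereditary completeness.
-/

namespace Pool.Agent.Lib.MP_e70876_an

open Filter Topology
open scoped InnerProductSpace

variable {H : Type*} [NormedAddCommGroup H] [InnerProductSpace ℂ H] [CompleteSpace H]
  (b : HilbertBasis ℤ ℂ H)

theorem ker_self (j : ℕ) : ker j (node j) = 1 := by
  unfold ker; rw [lam_sub_node]; exact div_self (LL_pos j).ne'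

theorem abs_ker (j : ℕ) (n : ℤ) : |ker j n| = LL j / |lam j - n| := by
  unfold ker; rw [abs_div, abs_of_pos (LL_pos j)]

omit [CompleteSpace H] in
theorem inner_b (m n : ℤ) : ⟪b m, b n⟫_ℂ = if m = n then 1 else 0 :=
  orthonormal_iff_ite.1 b.orthonormal m n

omit [CompleteSpace H] in
theorem inner_b_node (i j : ℕ) : ⟪b (node i), b (node j)⟫_ℂ = if i = j then 1 else 0 := by
  rw [inner_b]; simp only [node_strictMono.injective.eq_iff]

/-- Off-diagonal coefficients. -/
noncomputable def offd (j i : ℕ) : ℂ := if i = j then 0 else (ker j (node i) : ℝ)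

theorem norm_offd_le (j i : ℕ) : ‖offd j i‖ ≤ (1 / 16) * (1 / 2) ^ j * (1 / 2) ^ i := by
  unfold offd
  split_ifs with h
  · rw [norm_zero]; positivity
  · rw [Complex.norm_real, Real.norm_eq_abs, abs_ker]; exact offdiag_le h

/-- The off-diagonal perturbation vectors. -/
noncomputable def dvec (j : ℕ) : H := ∑' i, offd j i • b (node i)

theorem hasSum_dvec (j : ℕ) : HasSum (fun i => offd j i • b (node i)) (dvec b j) := by
  refine (Summable.of_norm_bounded
    (summable_geometric_two.mul_left ((1 / 16) * (1 / 2) ^ j)) fun i => ?_).hasSum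
  rw [norm_smul, b.orthonormal.1, mul_one]
  exact norm_offd_le j i

theorem norm_dvec_le (j : ℕ) : ‖dvec b j‖ ≤ (1 / 8) * (1 / 2) ^ j := by
  have h := (hasSum_dvec b j).norm_le_of_bounded
    (hasSum_geometric_two.mul_left ((1 / 16) * (1 / 2) ^ j)) fun i => by
      rw [norm_smul, b.orthonormal.1, mul_one]
      exact norm_offd_le j i
  linarith

theorem inner_node_dvec (i j : ℕ) : ⟪b (node i), dvec b j⟫_ℂ = offd j i := by
  have h := (innerSL ℂ (b (node i))).hasSum (hasSum_dvec b j)
  simp only [innerSL_apply_apply, inner_smul_right, inner_b_node, mul_ite, mul_one,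
    mul_zero] at h
  have h2 := hasSum_ite_eq i (offd j i)
  refine h.unique (h2.congr_fun fun l => ?_)
  by_cases hl : i = l
  · simp [hl]
  · simp [hl, Ne.symm hl]

theorem inner_nonnode_dvec {n : ℤ} (hn : n ∉ Set.range node) (j : ℕ) :
    ⟪b n, dvec b j⟫_ℂ = 0 := by
  have h := (innerSL ℂ (b n)).hasSum (hasSum_dvec b j)
  have h1 : ∀ i, n ≠ node i := fun i hi => hn ⟨i, hi.symm⟩
  simp only [innerSL_apply_apply, inner_smul_right, inner_b, h1, if_false, mul_zero] at h
  exact h.unique hasSum_zero

/-- The small perturbation operator. -/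
noncomputable def Eop : H →L[ℂ] H := ∑' j, (innerSL ℂ (b (node j))).smulRight (dvec b j)

theorem norm_term_le (j : ℕ) :
    ‖(innerSL ℂ (b (node j))).smulRight (dvec b j)‖ ≤ (1 / 8) * (1 / 2) ^ j := by
  rw [ContinuousLinearMap.norm_smulRight_apply, innerSL_apply_norm, b.orthonormal.1, one_mul]
  exact norm_dvec_le b j

theorem hasSum_Eop : HasSum (fun j => (innerSL ℂ (b (node j))).smulRight (dvec b j)) (Eop b) :=
  (Summable.of_norm_bounded (summable_geometric_two.mul_left (1 / 8)) (norm_term_le b)).hasSum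

theorem norm_Eop_lt : ‖-Eop b‖ < 1 := by
  have h := (hasSum_Eop b).norm_le_of_bounded (hasSum_geometric_two.mul_left (1 / 8))
    (norm_term_le b)
  rw [norm_neg]
  linarith

theorem hasSum_Eop_apply (g : H) :
    HasSum (fun j => ⟪b (node j), g⟫_ℂ • dvec b j) (Eop b g) := by
  have h := (ContinuousLinearMap.apply ℂ H g).hasSum (hasSum_Eop b)
  simpa using h

/-- The inverse of the identity plus the perturbation. -/
noncomputable def Psi : H →L[ℂ] H := ↑(Units.oneSub (-Eop b) (norm_Eop_lt b))⁻¹

theorem Psi_right (f : H) : Psi b f + Eop b (Psi b f) = f := by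
  have h := (Units.oneSub (-Eop b) (norm_Eop_lt b)).mul_inv
  have h2 := congrArg (fun T : H →L[ℂ] H => T f) h
  simpa [Psi] using h2

theorem Psi_left (g : H) : Psi b (g + Eop b g) = g := by
  have h := (Units.oneSub (-Eop b) (norm_Eop_lt b)).inv_mul
  have h2 := congrArg (fun T : H →L[ℂ] H => T g) h
  simpa [Psi] using h2

theorem Eop_of_zero {r : H} (hr : ∀ i, ⟪b (node i), r⟫_ℂ = 0) : Eop b r = 0 := by
  have h := hasSum_Eop_apply b r
  simp only [hr, zero_smul] at h
  exact h.unique hasSum_zero

theorem Psi_of_zero {r : H} (hr : ∀ i, ⟪b (node i), r⟫_ℂ = 0) : Psi b r = r := by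
  have h := Psi_left b r
  rwa [Eop_of_zero b hr, add_zero] at h

theorem Eop_node (j : ℕ) : Eop b (b (node j)) = dvec b j := by
  have h := hasSum_Eop_apply b (b (node j))
  simp only [inner_b_node, ite_smul, one_smul, zero_smul] at h
  refine h.unique ((hasSum_ite_eq j (dvec b j)).congr_fun fun l => ?_)
  by_cases hl : l = j
  · simp [hl]
  · simp [hl]

/-- The coefficients of `f` at the new frequencies. -/
noncomputable def beta (f : H) (j : ℕ) : ℂ := ⟪b (node j), Psi b f⟫_ℂ

theorem summable_beta (f : H) : Summable fun j => ‖beta b f j‖ ^ 2 :=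
  (b.orthonormal.comp node node_strictMono.injective).inner_products_summable (Psi b f)

theorem node_expansion (f : H) (i : ℕ) :
    HasSum (fun j => beta b f j * (ker j (node i) : ℝ)) ⟪b (node i), f⟫_ℂ := by
  have h := (innerSL ℂ (b (node i))).hasSum (hasSum_Eop_apply b (Psi b f))
  simp only [innerSL_apply_apply, inner_smul_right, inner_node_dvec] at h
  have h2 := (hasSum_ite_eq i (beta b f i)).add h
  have e : beta b f i + ⟪b (node i), Eop b (Psi b f)⟫_ℂ = ⟪b (node i), f⟫_ℂ := by
    unfold beta
    rw [← inner_add_right, Psi_right]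
  rw [e] at h2
  refine h2.congr_fun fun j => ?_
  unfold offd
  by_cases hj : j = i
  · subst hj
    simp [ker_self]
  · simp [hj, Ne.symm hj, beta]

/-- The vector representing the value of the Cauchy sum at an integer. -/
noncomputable def zvec (n : ℤ) : H := ∑' j, ((ker j n : ℝ) : ℂ) • b (node j)

theorem hasSum_zvec (n : ℤ) : HasSum (fun j => ((ker j n : ℝ) : ℂ) • b (node j)) (zvec b n) := by
  refine (Summable.of_norm_bounded (summable_rr.mul_left (4 * |(n : ℝ)| + 2)) fun j => ?_).hasSum
  rw [norm_smul, b.orthonormal.1, mul_one, Complex.norm_real, Real.norm_eq_abs, abs_ker]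
  exact LL_div_le j n

theorem hasSum_inner_zvec (n : ℤ) (g : H) :
    HasSum (fun j => ⟪b (node j), g⟫_ℂ * (ker j n : ℝ)) ⟪zvec b n, g⟫_ℂ := by
  have h := (innerSL ℂ g).hasSum (hasSum_zvec b n)
  simp only [innerSL_apply_apply, inner_smul_right] at h
  have h2 := Complex.hasSum_conj'.2 h
  simp only [map_mul, Complex.conj_ofReal, inner_conj_symm] at h2
  exact h2.congr_fun fun j => mul_comm _ _

/-- The index set of the system: integers that are not nodes, and the new frequencies. -/
abbrev Idx : Type := {n : ℤ // n ∉ Set.range node} ⊕ ℕ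

/-- The biorthogonal functionals. -/
noncomputable def phi : Idx → (H →L[ℂ] ℂ)
  | Sum.inl n => innerSL ℂ (b n) - (innerSL ℂ (zvec b n)).comp (Psi b)
  | Sum.inr j => (innerSL ℂ (b (node j))).comp (Psi b)

/-- The vectors of the system. -/
noncomputable def xv (k : ℕ → H) : Idx → H
  | Sum.inl n => b n
  | Sum.inr j => k j

variable {k : ℕ → H} (hk : ∀ j n, ⟪b n, k j⟫_ℂ = (ker j n : ℝ))
include hk

theorem inner_node_rest (i j : ℕ) : ⟪b (node i), k j - (b (node j) + dvec b j)⟫_ℂ = 0 := by
  rw [inner_sub_right, inner_add_right, hk, inner_b_node, inner_node_dvec]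
  unfold offd
  by_cases h : i = j
  · subst h; simp [ker_self]
  · simp [h]

theorem inner_nonnode_rest {n : ℤ} (hn : n ∉ Set.range node) (j : ℕ) :
    ⟪b n, k j - (b (node j) + dvec b j)⟫_ℂ = (ker j n : ℝ) := by
  have h1 : n ≠ node j := fun hi => hn ⟨j, hi.symm⟩
  rw [inner_sub_right, inner_add_right, hk, inner_b, inner_nonnode_dvec b hn]
  simp [h1]

theorem inner_node_Psi_k (i j : ℕ) : ⟪b (node i), Psi b (k j)⟫_ℂ = if i = j then 1 else 0 := by
  have e : k j = (b (node j) + Eop b (b (node j))) + (k j - (b (node j) + dvec b j)) := by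
    rw [Eop_node]; abel
  rw [e, map_add, Psi_left, Psi_of_zero b (inner_node_rest b hk · j), inner_add_right,
    inner_node_rest b hk, add_zero, inner_b_node]

open Classical in
theorem phi_xv (i i' : Idx) : phi b i (xv b k i') = if i = i' then 1 else 0 := by
  rcases i with ⟨n, hn⟩ | j <;> rcases i' with ⟨m, hm⟩ | j'
  · have h0 : ∀ i, ⟪b (node i), b m⟫_ℂ = 0 := by
      intro i
      rw [inner_b, if_neg (fun h => hm ⟨i, h⟩)]
    have h1 : ⟪zvec b n, b m⟫_ℂ = 0 := by
      have h := hasSum_inner_zvec b n (b m)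
      simp only [h0, zero_mul] at h
      exact h.unique hasSum_zero
    simp [phi, xv, Psi_of_zero b h0, h1, inner_b]
  · have h1 : ⟪zvec b n, Psi b (k j')⟫_ℂ = (ker j' n : ℝ) := by
      have h := hasSum_inner_zvec b n (Psi b (k j'))
      simp only [inner_node_Psi_k b hk, ite_mul, one_mul, zero_mul] at h
      refine h.unique ((hasSum_ite_eq j' _).congr_fun fun l => ?_)
      by_cases hl : l = j'
      · simp [hl]
      · simp [hl]
    simp [phi, xv, h1, hk]
  · have h0 : ∀ i, ⟪b (node i), b m⟫_ℂ = 0 := by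
      intro i
      rw [inner_b, if_neg (fun h => hm ⟨i, h⟩)]
    simp [phi, xv, Psi_of_zero b h0, h0]
  · simp [phi, xv, inner_node_Psi_k b hk]

/-- Spectral synthesis for the system. -/
theorem synthesis (f v : H) (h : ∀ i, phi b i f ≠ 0 → ⟪v, xv b k i⟫_ℂ = 0) : ⟪v, f⟫_ℂ = 0 := by
  refine core (β := beta b f) (u := fun n => ⟪b n, f⟫_ℂ) (v := fun n => ⟪v, b n⟫_ℂ)
    (summable_beta b f) (b.orthonormal.inner_products_summable f) ?_ ?_ ?_
    (b.hasSum_inner_mul_inner v f)
  · refine (b.orthonormal.inner_products_summable v).congr fun n => ?_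
    rw [norm_inner_symm]
  · intro n hn
    by_cases hnode : n ∈ Set.range node
    · obtain ⟨i, rfl⟩ := hnode
      exact node_expansion b f i
    · have h1 : phi b (Sum.inl ⟨n, hnode⟩) f = 0 := by
        by_contra h1
        exact hn (h _ h1)
      have h2 : ⟪b n, f⟫_ℂ = ⟪zvec b n, Psi b f⟫_ℂ := by
        simpa [phi, sub_eq_zero] using h1
      rw [h2]
      exact hasSum_inner_zvec b n (Psi b f)
  · intro i hi
    have h1 : ⟪v, k i⟫_ℂ = 0 := h (Sum.inr i) (by simpa [phi, beta] using hi)
    have h2 := b.hasSum_inner_mul_inner v (k i)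
    simp only [hk, h1] at h2
    exact h2

end Pool.Agent.Lib.MP_e70876_an
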