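import Pool.Agent.Lib.MP_e70876_an.Kernel

/-!
The key rigidity statement behind hereditary completeness, on the level of sequences.
-/

namespace Pool.Agent.Lib.MP_e70876_an

open Filter Topology

/-- The middle range of integers at stage `j`. -/
noncomputable def midSet (j : ℕ) : Finset ℤ :=
  (Finset.Icc (-(YY j : ℤ)) (YY j)).filter fun n => (XX j : ℤ) < |n|

theorem mem_midSet {j : ℕ} {n : ℤ} : n ∈ midSet j ↔ (XX j : ℤ) < |n| ∧ |n| ≤ YY j := by
  unfold midSet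
  rw [Finset.mem_filter, Finset.mem_Icc, ← abs_le, and_comm]

attribute [local irreducible] midSet mm XX YY LL lam rr UU VV PP QQ Clow

theorem summable_mid {a : ℤ → ℝ} (ha : Summable a) (ha0 : ∀ n, 0 ≤ a n) :
    Summable fun j => ∑ n ∈ midSet j, a n := by
  refine summable_of_sum_range_le (c := ∑' n, a n)
    (fun j => Finset.sum_nonneg fun n _ => ha0 n) fun J => ?_
  rw [← Finset.sum_biUnion]
  · exact ha.sum_le_tsum _ fun n _ => ha0 n
  · have key : ∀ i j, i < j → Disjoint (midSet i) (midSet j) := by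
      intro i j hij
      rw [Finset.disjoint_left]
      intro n h1 h2
      rw [mem_midSet] at h1 h2
      have h3 : YY i ≤ XX j := (YY_le_XX_succ i).trans (XX_mono hij)
      have h4 : (YY i : ℤ) ≤ XX j := by exact_mod_cast h3
      linarith [h1.2, h2.1]
    intro i _ j _ hij
    rcases lt_or_gt_of_ne hij with h | h
    · exact key i j h
    · exact (key j i h).symm

/-- The mass far away from the origin. -/
noncomputable def tailMass (a : ℤ → ℝ) (j : ℕ) : ℝ :=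
  (∑' n, a n) - ∑ n ∈ Finset.Icc (-(XX j : ℤ)) (XX j), a n

theorem sum_le_tailMass {a : ℤ → ℝ} (ha : Summable a) (ha0 : ∀ n, 0 ≤ a n) (j : ℕ)
    (s : Finset ℤ) (hs : ∀ n ∈ s, (XX j : ℤ) < |n|) : ∑ n ∈ s, a n ≤ tailMass a j := by
  unfold tailMass
  have hd : Disjoint s (Finset.Icc (-(XX j : ℤ)) (XX j)) := by
    rw [Finset.disjoint_left]
    intro n h1 h2
    rw [Finset.mem_Icc, ← abs_le] at h2
    linarith [hs n h1]
  have := ha.sum_le_tsum (s ∪ Finset.Icc (-(XX j : ℤ)) (XX j)) fun n _ => ha0 n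
  rw [Finset.sum_union hd] at this
  linarith

theorem tendsto_tailMass {a : ℤ → ℝ} (ha : Summable a) :
    Tendsto (tailMass a) atTop (𝓝 0) := by
  have h1 : Tendsto (fun j => Finset.Icc (-(XX j : ℤ)) (XX j)) atTop atTop := by
    refine tendsto_atTop_finset_of_monotone (fun i j hij => ?_) fun n => ⟨n.natAbs, ?_⟩
    · have : (XX i : ℤ) ≤ XX j := by exact_mod_cast XX_mono hij
      exact Finset.Icc_subset_Icc (by linarith) this
    · rw [Finset.mem_Icc, ← abs_le]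
      have : (n.natAbs : ℤ) ≤ XX n.natAbs := by exact_mod_cast le_XX n.natAbs
      rwa [Int.natCast_natAbs] at this
  have h0 : Tendsto (fun s : Finset ℤ => ∑ n ∈ s, a n) atTop (𝓝 (∑' n, a n)) := ha.hasSum
  have h2 := h0.comp h1
  have := h2.const_sub (∑' n, a n)
  rw [sub_self] at this
  exact this

variable {β : ℕ → ℂ} {u v : ℤ → ℂ}

theorem far_part (β : ℕ → ℂ) (hu : Summable fun n => ‖u n‖ ^ 2) (hv : Summable fun n => ‖v n‖ ^ 2)
    (j : ℕ) (s : Finset ℤ) (hs : ∀ n ∈ s, (YY j : ℤ) < |n|) :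
    ∑ n ∈ s, ‖v n‖ * ‖u n - Clow β j n‖ ≤
      tailMass (fun n => ‖u n‖ ^ 2 + ‖v n‖ ^ 2) j + 16 * UU β j ^ 2 := by
  have hXY : (XX j : ℤ) ≤ YY j := by exact_mod_cast XX_le_YY j
  have hs' : ∀ n ∈ s, (YY j : ℝ) < |(n : ℝ)| := fun n hn => by exact_mod_cast hs n hn
  have hY1 : (1 : ℝ) ≤ YY j := (XX_ge_one j).trans (XX_le_YY j)
  have h1 := sum_le_tailMass (hu.add hv) (fun n => by positivity) j s
    (fun n hn => hXY.trans_lt (hs n hn))
  have h2 := sum_inv_sq_le (YY j) (by exact_mod_cast hY1) s hs'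
  have hU := UU_nonneg β j
  have hL := LL_pos j
  calc ∑ n ∈ s, ‖v n‖ * ‖u n - Clow β j n‖
      ≤ ∑ n ∈ s, ((‖u n‖ ^ 2 + ‖v n‖ ^ 2) + 2 * (UU β j * LL j) ^ 2 * (1 / (n : ℝ) ^ 2)) := by
        refine Finset.sum_le_sum fun n hn => ?_
        have hn1 : 2 * lam j ≤ |(n : ℝ)| := by
          linarith [two_lam_le_XX j, XX_le_YY j, hs' n hn]
        have h3 := (Clow_bound β j hn1).1
        have h4 : ‖Clow β j n‖ ^ 2 ≤ (2 * (UU β j * LL j) / |(n : ℝ)|) ^ 2 := by gcongr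
        have h5 : (2 * (UU β j * LL j) / |(n : ℝ)|) ^ 2 =
            4 * (UU β j * LL j) ^ 2 * (1 / (n : ℝ) ^ 2) := by
          rw [div_pow, sq_abs]; ring
        have h6 := norm_sub_le (u n) (Clow β j n)
        have h7 := norm_nonneg (v n)
        have h8 : ‖v n‖ * ‖u n - Clow β j n‖ ≤ ‖v n‖ * (‖u n‖ + ‖Clow β j n‖) := by gcongr
        nlinarith [sq_nonneg (‖v n‖ - ‖u n‖), sq_nonneg (‖v n‖ - ‖Clow β j n‖),
          sq_nonneg ‖u n‖]
    _ = ∑ n ∈ s, (‖u n‖ ^ 2 + ‖v n‖ ^ 2) +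
          2 * (UU β j * LL j) ^ 2 * ∑ n ∈ s, 1 / (n : ℝ) ^ 2 := by
        rw [Finset.sum_add_distrib, Finset.mul_sum]
    _ ≤ tailMass (fun n => ‖u n‖ ^ 2 + ‖v n‖ ^ 2) j + 2 * (UU β j * LL j) ^ 2 * (2 / YY j) := by
        gcongr
    _ ≤ _ := by
        refine add_le_add le_rfl ?_
        have h3 := LL_sq_le_YY j
        rw [← mul_div_assoc, div_le_iff₀ (by linarith)]
        have : 0 ≤ UU β j ^ 2 := by positivity
        nlinarith

theorem near_part (hβ : Summable fun i => ‖β i‖ ^ 2) (hv : Summable fun n => ‖v n‖ ^ 2)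
    (H1 : ∀ n, v n ≠ 0 → HasSum (fun i => β i * (ker i n : ℝ)) (u n))
    (j : ℕ) {θ : ℝ} (hθ : 0 < θ) (s : Finset ℤ) (hs : ∀ n ∈ s, |n| ≤ (XX j : ℤ)) :
    ∑ n ∈ s, ‖v n‖ * ‖u n - Clow β j n‖ ≤
      θ * (∑' n, ‖v n‖ ^ 2) + 16384 * VV β j ^ 2 / θ := by
  have hs' : ∀ n ∈ s, |(n : ℝ)| ≤ XX j := fun n hn => by exact_mod_cast hs n hn
  have h1 := card_le_of_abs_le (XX j) (XX_ge_one j) s hs'
  have h2 := hv.sum_le_tsum s fun n _ => by positivity
  have hV := VV_nonneg β j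
  have hr := rr_pos (j + 1)
  calc ∑ n ∈ s, ‖v n‖ * ‖u n - Clow β j n‖
      ≤ ∑ n ∈ s, (θ * ‖v n‖ ^ 2 + (VV β j * rr (j + 1)) ^ 2 / θ) := by
        refine Finset.sum_le_sum fun n hn => ?_
        rcases eq_or_ne (v n) 0 with h0 | h0
        · rw [h0, norm_zero, zero_mul]; positivity
        have hn1 : 2 * |(n : ℝ)| ≤ lam (j + 1) := by
          linarith [two_YY_le j, XX_le_YY j, hs' n hn]
        have h3 := (Chigh_bound hβ j (H1 n h0) hn1).1
        have h7 := norm_nonneg (v n)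
        have h8 : ‖v n‖ * ‖u n - Clow β j n‖ ≤ ‖v n‖ * (2 * (VV β j * rr (j + 1))) := by gcongr
        have h9 : 0 ≤ (θ * ‖v n‖ - VV β j * rr (j + 1)) ^ 2 / θ := by positivity
        have e : θ * ‖v n‖ ^ 2 + (VV β j * rr (j + 1)) ^ 2 / θ -
            ‖v n‖ * (2 * (VV β j * rr (j + 1))) = (θ * ‖v n‖ - VV β j * rr (j + 1)) ^ 2 / θ := by
          field_simp; ring
        linarith
    _ = θ * ∑ n ∈ s, ‖v n‖ ^ 2 + s.card * ((VV β j * rr (j + 1)) ^ 2 / θ) := by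
        rw [Finset.sum_add_distrib, Finset.mul_sum, Finset.sum_const, nsmul_eq_mul]
    _ ≤ θ * (∑' n, ‖v n‖ ^ 2) + (4 * XX j) * ((VV β j * rr (j + 1)) ^ 2 / θ) := by gcongr
    _ ≤ _ := by
        refine add_le_add le_rfl ?_
        rw [← mul_div_assoc]
        refine div_le_div_of_nonneg_right ?_ hθ.le
        have h3 := XX_rr j
        have : 0 ≤ VV β j ^ 2 := by positivity
        nlinarith

/-- The total mass at stage `j`. -/
noncomputable def mass (β : ℕ → ℂ) (u v : ℤ → ℂ) (j : ℕ) : ℝ :=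
  (∑ n ∈ midSet j, ‖u n‖ ^ 2) + (∑ n ∈ midSet j, ‖v n‖ ^ 2) + UU β j ^ 2 + VV β j ^ 2

theorem summable_mass (hβ : Summable fun i => ‖β i‖ ^ 2) (hu : Summable fun n => ‖u n‖ ^ 2)
    (hv : Summable fun n => ‖v n‖ ^ 2) : Summable (mass β u v) :=
  (((summable_mid hu fun _ => by positivity).add (summable_mid hv fun _ => by positivity)).add
    (summable_UU hβ)).add (summable_VV hβ)

theorem mass_eq (β : ℕ → ℂ) (u v : ℤ → ℂ) (j : ℕ) : mass β u v j =
    (∑ n ∈ midSet j, ‖u n‖ ^ 2) + (∑ n ∈ midSet j, ‖v n‖ ^ 2) + UU β j ^ 2 + VV β j ^ 2 := rfl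

attribute [local irreducible] mass tailMass

theorem errLow (β : ℕ → ℂ) (j : ℕ) (s : Finset ℤ) (hs : s ⊆ midSet j) :
    ∑ n ∈ s, ‖Clow β j n + PP β j / n‖ ^ 2 ≤ 128 * UU β j ^ 2 := by
  have hs' : ∀ n ∈ s, (XX j : ℝ) < |(n : ℝ)| := fun n hn => by
    exact_mod_cast (mem_midSet.1 (hs hn)).1
  have hX := XX_ge_one j
  have h2 := sum_inv_sq_le (XX j) (by exact_mod_cast hX) s hs'
  have hU := UU_nonneg β j
  have hL := LL_pos j
  have hl := lam_pos j
  calc ∑ n ∈ s, ‖Clow β j n + PP β j / n‖ ^ 2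
      ≤ ∑ n ∈ s, (2 * (UU β j * LL j) * lam j) ^ 2 / (XX j : ℝ) ^ 2 * (1 / (n : ℝ) ^ 2) := by
        refine Finset.sum_le_sum fun n hn => ?_
        have hn1 : 2 * lam j ≤ |(n : ℝ)| := by linarith [two_lam_le_XX j, hs' n hn]
        have h3 := (Clow_bound β j hn1).2
        have h4 : (XX j : ℝ) ^ 2 ≤ (n : ℝ) ^ 2 := by
          rw [← sq_abs (n : ℝ)]
          have := (hs' n hn).le
          gcongr
        have h5 : (0 : ℝ) < (XX j : ℝ) ^ 2 := by positivity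
        calc ‖Clow β j n + PP β j / n‖ ^ 2 ≤ (2 * (UU β j * LL j) * lam j / (n : ℝ) ^ 2) ^ 2 := by
              gcongr
          _ = (2 * (UU β j * LL j) * lam j) ^ 2 / (n : ℝ) ^ 2 * (1 / (n : ℝ) ^ 2) := by ring
          _ ≤ _ := by gcongr
    _ = (2 * (UU β j * LL j) * lam j) ^ 2 / (XX j : ℝ) ^ 2 * ∑ n ∈ s, 1 / (n : ℝ) ^ 2 := by
        rw [Finset.mul_sum]
    _ ≤ (2 * (UU β j * LL j) * lam j) ^ 2 / (XX j : ℝ) ^ 2 * (2 / XX j) := by gcongr
    _ = 8 * UU β j ^ 2 * (LL j ^ 2 * lam j ^ 2) / (XX j : ℝ) ^ 3 := by field_simp; ring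
    _ ≤ 8 * UU β j ^ 2 * (16 * (XX j : ℝ) ^ 3) / (XX j : ℝ) ^ 3 := by
        have := LL_lam_XX j
        gcongr 8 * UU β j ^ 2 * ?_ / (XX j : ℝ) ^ 3
    _ = _ := by field_simp; ring

theorem errHigh (hβ : Summable fun i => ‖β i‖ ^ 2)
    (H1 : ∀ n, v n ≠ 0 → HasSum (fun i => β i * (ker i n : ℝ)) (u n))
    (j : ℕ) (s : Finset ℤ) (hs : s ⊆ midSet j) (hs0 : ∀ n ∈ s, v n ≠ 0) :
    ∑ n ∈ s, ‖u n - Clow β j n - QQ β j‖ ^ 2 ≤ 65536 * VV β j ^ 2 := by
  have hs' : ∀ n ∈ s, |(n : ℝ)| ≤ YY j := fun n hn => by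
    exact_mod_cast (mem_midSet.1 (hs hn)).2
  have hY1 : (1 : ℝ) ≤ YY j := (XX_ge_one j).trans (XX_le_YY j)
  have h1 := card_le_of_abs_le (YY j) hY1 s hs'
  have hV := VV_nonneg β j
  have hr := rr_pos (j + 1)
  have hl := lam_pos (j + 1)
  calc ∑ n ∈ s, ‖u n - Clow β j n - QQ β j‖ ^ 2
      ≤ ∑ n ∈ s, (2 * (YY j : ℝ) / lam (j + 1) * (VV β j * rr (j + 1))) ^ 2 := by
        refine Finset.sum_le_sum fun n hn => ?_
        have hn1 : 2 * |(n : ℝ)| ≤ lam (j + 1) := by linarith [two_YY_le j, hs' n hn]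
        have h3 := (Chigh_bound hβ j (H1 n (hs0 n hn)) hn1).2
        have h4 := hs' n hn
        calc _ ≤ (2 * |(n : ℝ)| / lam (j + 1) * (VV β j * rr (j + 1))) ^ 2 := by gcongr
          _ ≤ _ := by gcongr
    _ = s.card * (2 * (YY j : ℝ) / lam (j + 1) * (VV β j * rr (j + 1))) ^ 2 := by
        rw [Finset.sum_const, nsmul_eq_mul]
    _ ≤ (4 * YY j) * (2 * (YY j : ℝ) / lam (j + 1) * (VV β j * rr (j + 1))) ^ 2 := by gcongr
    _ = 16 * VV β j ^ 2 * ((YY j : ℝ) ^ 3 * rr (j + 1) ^ 2) / lam (j + 1) ^ 2 := by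
        field_simp; ring
    _ ≤ 16 * VV β j ^ 2 * (4096 * lam (j + 1) ^ 2) / lam (j + 1) ^ 2 := by
        have := YY_rr j
        gcongr 16 * VV β j ^ 2 * ?_ / lam (j + 1) ^ 2
    _ = _ := by field_simp; ring

theorem mid_part (hβ : Summable fun i => ‖β i‖ ^ 2)
    (H1 : ∀ n, v n ≠ 0 → HasSum (fun i => β i * (ker i n : ℝ)) (u n))
    (j : ℕ) {θ : ℝ} (hθ : 0 < θ) (s : Finset ℤ) (hs : s ⊆ midSet j) :
    ∑ n ∈ s, ‖v n‖ * ‖u n - Clow β j n‖ ≤
      θ + (θ + 1 / θ + 140000) * (tt j * mass β u v j) +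
        6400000 * (tt j * mass β u v j) ^ 2 := by
  classical
  set s' := s.filter (fun n => v n ≠ 0) with hs'def
  have hsub : s' ⊆ midSet j := (Finset.filter_subset _ _).trans hs
  have hs0 : ∀ n ∈ s', v n ≠ 0 := fun n hn => (Finset.mem_filter.1 hn).2
  have e0 : ∑ n ∈ s, ‖v n‖ * ‖u n - Clow β j n‖ = ∑ n ∈ s', ‖v n‖ * ‖u n - Clow β j n‖ := by
    rw [hs'def, Finset.sum_filter]
    refine Finset.sum_congr rfl fun n _ => ?_
    split_ifs with h
    · rfl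
    · rw [not_not.1 h, norm_zero, zero_mul]
  rw [e0]
  set m := mass β u v j with hm
  set μ := ∑ n ∈ s', ‖u n‖ ^ 2 with hμ
  set ν := ∑ n ∈ s', ‖v n‖ ^ 2 with hν
  have hμ0 : 0 ≤ μ := Finset.sum_nonneg fun _ _ => by positivity
  have hν0 : 0 ≤ ν := Finset.sum_nonneg fun _ _ => by positivity
  have hU := UU_nonneg β j
  have hV := VV_nonneg β j
  have hmass : μ + ν + UU β j ^ 2 + VV β j ^ 2 ≤ m := by
    have h1 : μ ≤ ∑ n ∈ midSet j, ‖u n‖ ^ 2 :=
      Finset.sum_le_sum_of_subset_of_nonneg hsub fun _ _ _ => by positivity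
    have h2 : ν ≤ ∑ n ∈ midSet j, ‖v n‖ ^ 2 :=
      Finset.sum_le_sum_of_subset_of_nonneg hsub fun _ _ _ => by positivity
    rw [hm, mass_eq]; linarith
  have hU2 : 0 ≤ UU β j ^ 2 := by positivity
  have hV2 : 0 ≤ VV β j ^ 2 := by positivity
  have hm0 : 0 ≤ m := by linarith
  have ht := tt_ge j
  have hne : ∀ n ∈ s', n ≠ 0 := by
    intro n hn h0
    have := (mem_midSet.1 (hsub hn)).1
    rw [h0, abs_zero] at this
    have h2 : (0 : ℤ) ≤ XX j := Nat.cast_nonneg _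
    linarith
  have hE1 := errLow β j s' hsub
  have hE2 := errHigh hβ H1 j s' hsub hs0
  have hloc := local_bound s' hne (fun n => ‖v n‖) (fun n => norm_nonneg _) (PP β j) (QQ β j)
    (tt_pos j) hθ
  have hη : ∑ n ∈ s', ‖QQ β j - PP β j / n‖ ^ 2 ≤ 196608 * m := by
    calc ∑ n ∈ s', ‖QQ β j - PP β j / n‖ ^ 2
        ≤ ∑ n ∈ s', (3 * ‖u n‖ ^ 2 + 3 * ‖Clow β j n + PP β j / n‖ ^ 2 +
            3 * ‖u n - Clow β j n - QQ β j‖ ^ 2) := by
          refine Finset.sum_le_sum fun n _ => ?_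
          have e : QQ β j - PP β j / n =
              u n - (Clow β j n + PP β j / n) - (u n - Clow β j n - QQ β j) := by ring
          have h1 : ‖QQ β j - PP β j / n‖ ≤
              ‖u n‖ + ‖Clow β j n + PP β j / n‖ + ‖u n - Clow β j n - QQ β j‖ := by
            rw [e]
            exact (norm_sub_le _ _).trans (by gcongr; exact norm_sub_le _ _)
          have h2 : ‖QQ β j - PP β j / n‖ ^ 2 ≤
              (‖u n‖ + ‖Clow β j n + PP β j / n‖ + ‖u n - Clow β j n - QQ β j‖) ^ 2 := by gcongr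
          nlinarith [sq_nonneg (‖u n‖ - ‖Clow β j n + PP β j / n‖),
            sq_nonneg (‖u n‖ - ‖u n - Clow β j n - QQ β j‖),
            sq_nonneg (‖Clow β j n + PP β j / n‖ - ‖u n - Clow β j n - QQ β j‖)]
      _ = 3 * μ + 3 * ∑ n ∈ s', ‖Clow β j n + PP β j / n‖ ^ 2 +
            3 * ∑ n ∈ s', ‖u n - Clow β j n - QQ β j‖ ^ 2 := by
          rw [Finset.sum_add_distrib, Finset.sum_add_distrib, hμ, Finset.mul_sum, Finset.mul_sum,
            Finset.mul_sum]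
      _ ≤ _ := by linarith
  have hQ := norm_QQ_le hβ j
  have hP := norm_PP_le β j
  have hr := rr_pos (j + 1)
  have hr1 := rr_le_one (j + 1)
  have hQ2 : ‖QQ β j‖ ^ 2 ≤ m := by
    have : ‖QQ β j‖ ≤ VV β j := hQ.trans (by nlinarith)
    have : ‖QQ β j‖ ^ 2 ≤ VV β j ^ 2 := by gcongr
    linarith
  have hPQ : ‖PP β j‖ * ‖QQ β j‖ / tt j ≤ 64 * tt j ^ 2 * m := by
    rw [div_le_iff₀ (tt_pos j)]
    have hL := LL_pos j
    have h1 := LL_rr j
    have h2 : UU β j * VV β j ≤ m / 2 := by nlinarith [sq_nonneg (UU β j - VV β j)]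
    calc ‖PP β j‖ * ‖QQ β j‖ ≤ (UU β j * LL j) * (VV β j * rr (j + 1)) := by gcongr
      _ = (UU β j * VV β j) * (LL j * rr (j + 1)) := by ring
      _ ≤ (m / 2) * (128 * tt j ^ 3) := by gcongr
      _ = _ := by ring
  have hx : m ≤ tt j * m := by nlinarith
  have hmain : ∑ n ∈ s', ‖QQ β j‖ * ‖v n‖ ≤
      θ + (θ + 1 / θ + 100000) * (tt j * m) + 6400000 * (tt j * m) ^ 2 := by
    refine hloc.trans ?_
    have a1 : θ * (‖QQ β j‖ ^ 2 / (2 * tt j) + 1) ≤ θ + θ * (tt j * m) := by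
      have : ‖QQ β j‖ ^ 2 / (2 * tt j) ≤ tt j * m := by
        rw [div_le_iff₀ (by linarith)]
        nlinarith
      nlinarith
    have a2 : tt j * ν / (2 * θ) ≤ 1 / θ * (tt j * m) := by
      rw [div_le_iff₀ (by linarith)]
      have : 1 / θ * (tt j * m) * (2 * θ) = 2 * (tt j * m) := by field_simp
      rw [this]
      have : tt j * ν ≤ tt j * m := by gcongr; linarith
      nlinarith
    have a3 : (1 + ‖PP β j‖ * ‖QQ β j‖ / tt j) *
        ((∑ n ∈ s', ‖QQ β j - PP β j / n‖ ^ 2) + ν) / 2 ≤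
        (1 + 64 * tt j ^ 2 * m) * (200000 * m) / 2 := by
      gcongr
      linarith
    have a4 : (1 + 64 * tt j ^ 2 * m) * (200000 * m) / 2 =
        100000 * m + 6400000 * (tt j * m) ^ 2 := by ring
    linarith
  calc ∑ n ∈ s', ‖v n‖ * ‖u n - Clow β j n‖
      ≤ ∑ n ∈ s', (‖QQ β j‖ * ‖v n‖ + (‖v n‖ ^ 2 / 2 + ‖u n - Clow β j n - QQ β j‖ ^ 2 / 2)) := by
        refine Finset.sum_le_sum fun n _ => ?_
        have h1 : ‖u n - Clow β j n‖ ≤ ‖QQ β j‖ + ‖u n - Clow β j n - QQ β j‖ := by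
          calc _ = ‖QQ β j + (u n - Clow β j n - QQ β j)‖ := by congr 1; ring
            _ ≤ _ := norm_add_le _ _
        have h2 := norm_nonneg (v n)
        have h3 : ‖v n‖ * ‖u n - Clow β j n‖ ≤
            ‖v n‖ * (‖QQ β j‖ + ‖u n - Clow β j n - QQ β j‖) := by gcongr
        nlinarith [sq_nonneg (‖v n‖ - ‖u n - Clow β j n - QQ β j‖)]
    _ = ∑ n ∈ s', ‖QQ β j‖ * ‖v n‖ +
          (ν / 2 + (∑ n ∈ s', ‖u n - Clow β j n - QQ β j‖ ^ 2) / 2) := by
        rw [Finset.sum_add_distrib, Finset.sum_add_distrib, hν, Finset.sum_div, Finset.sum_div]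
    _ ≤ _ := by nlinarith

theorem stage_bound (hβ : Summable fun i => ‖β i‖ ^ 2) (hu : Summable fun n => ‖u n‖ ^ 2)
    (hv : Summable fun n => ‖v n‖ ^ 2)
    (H1 : ∀ n, v n ≠ 0 → HasSum (fun i => β i * (ker i n : ℝ)) (u n))
    (j : ℕ) {θ : ℝ} (hθ : 0 < θ) (s : Finset ℤ) :
    ∑ n ∈ s, ‖v n‖ * ‖u n - Clow β j n‖ ≤
      θ * (1 + ∑' n, ‖v n‖ ^ 2) + tailMass (fun n => ‖u n‖ ^ 2 + ‖v n‖ ^ 2) j +
        (θ + 16385 / θ + 140016) * (tt j * mass β u v j) +
        6400000 * (tt j * mass β u v j) ^ 2 := by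
  rw [← Finset.sum_filter_add_sum_filter_not s (fun n => |n| ≤ (XX j : ℤ)),
    ← Finset.sum_filter_add_sum_filter_not (s.filter fun n => ¬ |n| ≤ (XX j : ℤ))
      (fun n => |n| ≤ (YY j : ℤ))]
  have h1 := near_part hβ hv H1 j hθ (s.filter fun n => |n| ≤ (XX j : ℤ))
    (fun n hn => (Finset.mem_filter.1 hn).2)
  have h2 := mid_part hβ H1 j hθ
    ((s.filter fun n => ¬ |n| ≤ (XX j : ℤ)).filter fun n => |n| ≤ (YY j : ℤ)) (fun n hn => by
      rw [Finset.mem_filter, Finset.mem_filter] at hn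
      exact mem_midSet.2 ⟨not_le.1 hn.1.2, hn.2⟩)
  have h3 := far_part β hu hv j
    ((s.filter fun n => ¬ |n| ≤ (XX j : ℤ)).filter fun n => ¬ |n| ≤ (YY j : ℤ))
    (fun n hn => not_le.1 (Finset.mem_filter.1 hn).2)
  have a1 : 0 ≤ ∑ n ∈ midSet j, ‖u n‖ ^ 2 := Finset.sum_nonneg fun _ _ => by positivity
  have a2 : 0 ≤ ∑ n ∈ midSet j, ‖v n‖ ^ 2 := Finset.sum_nonneg fun _ _ => by positivity
  have a3 : 0 ≤ UU β j ^ 2 := by positivity
  have a4 : 0 ≤ VV β j ^ 2 := by positivity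
  have ht := tt_ge j
  have b0 : 0 ≤ mass β u v j := by rw [mass_eq]; linarith
  have b1 : UU β j ^ 2 ≤ tt j * mass β u v j := by
    have : UU β j ^ 2 ≤ mass β u v j := by rw [mass_eq]; linarith
    nlinarith
  have b2 : VV β j ^ 2 ≤ tt j * mass β u v j := by
    have : VV β j ^ 2 ≤ mass β u v j := by rw [mass_eq]; linarith
    nlinarith
  have b3 : 16384 * VV β j ^ 2 / θ ≤ 16384 / θ * (tt j * mass β u v j) := by
    rw [div_mul_eq_mul_div]; gcongr
  have e : (θ + 16385 / θ + 140016) * (tt j * mass β u v j) =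
      (θ + 1 / θ + 140000) * (tt j * mass β u v j) + 16384 / θ * (tt j * mass β u v j) +
        16 * (tt j * mass β u v j) := by ring
  rw [e]
  linarith

/-- The rigidity theorem. -/
theorem core (hβ : Summable fun i => ‖β i‖ ^ 2) (hu : Summable fun n => ‖u n‖ ^ 2)
    (hv : Summable fun n => ‖v n‖ ^ 2)
    (H1 : ∀ n, v n ≠ 0 → HasSum (fun i => β i * (ker i n : ℝ)) (u n))
    (H2 : ∀ i, β i ≠ 0 → HasSum (fun n => v n * (ker i n : ℝ)) 0)
    {τ : ℂ} (hτ : HasSum (fun n => v n * u n) τ) : τ = 0 := by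
  have hlow : ∀ j, HasSum (fun n => v n * Clow β j n) 0 := by
    intro j
    have h : ∀ i ∈ Finset.range (j + 1), HasSum (fun n => v n * (β i * (ker i n : ℝ))) 0 := by
      intro i _
      rcases eq_or_ne (β i) 0 with h0 | h0
      · simp [h0, hasSum_zero]
      · have := (H2 i h0).mul_left (β i)
        rw [mul_zero] at this
        exact this.congr_fun fun n => by ring
    have := hasSum_sum h
    simp only [Finset.sum_const_zero] at this
    refine this.congr_fun fun n => ?_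
    unfold Clow
    rw [Finset.mul_sum]
  have hbound : ∀ j (θ : ℝ), 0 < θ → ‖τ‖ ≤
      θ * (1 + ∑' n, ‖v n‖ ^ 2) + tailMass (fun n => ‖u n‖ ^ 2 + ‖v n‖ ^ 2) j +
        (θ + 16385 / θ + 140016) * (tt j * mass β u v j) +
        6400000 * (tt j * mass β u v j) ^ 2 := by
    intro j θ hθ
    have h := hτ.sub (hlow j)
    rw [sub_zero] at h
    refine le_of_tendsto' (Tendsto.norm h) fun s => ?_
    refine (norm_sum_le _ _).trans (le_trans (le_of_eq ?_) (stage_bound hβ hu hv H1 j hθ s))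
    refine Finset.sum_congr rfl fun n _ => ?_
    rw [← mul_sub, norm_mul]
  have hS : 0 ≤ ∑' n, ‖v n‖ ^ 2 := tsum_nonneg fun _ => by positivity
  have hθ : ∀ θ : ℝ, 0 < θ → ‖τ‖ ≤ θ * (1 + ∑' n, ‖v n‖ ^ 2) := by
    intro θ hθ
    refine le_of_forall_pos_le_add fun δ hδ => ?_
    set c := θ + 16385 / θ + 140016 + 6400000 with hc
    have hc0 : 0 < c := by positivity
    have h1 := frequently_small _ (summable_mass hβ hu hv)
      (x := min 1 (δ / (2 * c))) (lt_min one_pos (by positivity))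
    have h2 := (tendsto_tailMass (hu.add hv)).eventually (gt_mem_nhds (half_pos hδ))
    obtain ⟨j, hj1, hj2⟩ := (h1.and_eventually h2).exists
    have h3 := hbound j θ hθ
    set x := tt j * mass β u v j with hx
    have hx0 : 0 ≤ x := by
      refine mul_nonneg (tt_pos j).le ?_
      rw [mass_eq]
      have a1 : 0 ≤ ∑ n ∈ midSet j, ‖u n‖ ^ 2 := Finset.sum_nonneg fun _ _ => by positivity
      have a2 : 0 ≤ ∑ n ∈ midSet j, ‖v n‖ ^ 2 := Finset.sum_nonneg fun _ _ => by positivity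
      positivity
    have hx1 : x ≤ 1 := hj1.le.trans (min_le_left _ _)
    have hx2 : x ≤ δ / (2 * c) := hj1.le.trans (min_le_right _ _)
    have hx3 : c * x ≤ δ / 2 := by
      rw [le_div_iff₀ (by positivity)] at hx2
      linarith
    have hx4 : x ^ 2 ≤ x := by nlinarith
    have e : c * x = (θ + 16385 / θ + 140016) * x + 6400000 * x := by rw [hc]; ring
    linarith
  rw [← norm_le_zero_iff]
  refine le_of_forall_pos_le_add fun δ hδ => ?_
  have := hθ (δ / (1 + ∑' n, ‖v n‖ ^ 2)) (by positivity)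
  rw [div_mul_cancel₀ _ (by positivity)] at this
  linarith

end Pool.Agent.Lib.MP_e70876_an
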