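import Mathlib

/-!
Definitions for systems of exponentials in the space of square integrable functions on
the interval from minus pi to pi: exactness, biorthogonal systems, hereditary completeness and
linear summation bases.
-/

namespace Pool.Agent.Lib.MP_e70876_an

open MeasureTheory Filter Topology
open scoped InnerProductSpace

/-- The complex Hilbert space of square integrable functions on the interval `(-π, π)`. -/
abbrev LTwo : Type := Lp ℂ 2 ((volume : Measure ℝ).restrict (Set.Ioo (-Real.pi) Real.pi))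

theorem memLp_expo (z : ℂ) :
    MemLp (fun t : ℝ => Complex.exp (Complex.I * z * t)) 2
      ((volume : Measure ℝ).restrict (Set.Ioo (-Real.pi) Real.pi)) := by
  have hc : Continuous fun t : ℝ => Complex.exp (Complex.I * z * t) := by fun_prop
  obtain ⟨C, hC⟩ := (isCompact_Icc (a := -Real.pi) (b := Real.pi)).exists_bound_of_continuousOn
    hc.continuousOn
  refine MemLp.of_bound hc.aestronglyMeasurable C ?_
  filter_upwards [ae_restrict_mem measurableSet_Ioo] with t ht
  exact hC t (Set.Ioo_subset_Icc_self ht)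

/-- The exponential `t ↦ exp (i z t)` as an element of `L²(-π, π)`. -/
noncomputable def expo (z : ℂ) : LTwo :=
  MemLp.toLp (fun t : ℝ => Complex.exp (Complex.I * z * t)) (memLp_expo z)

/-- The closed linear span of a set of vectors. -/
def closedSpan (s : Set LTwo) : Set LTwo := closure (Submodule.span ℂ s : Set LTwo)

/-- The exponentials with frequencies in `Λ` form an exact (complete and minimal) system. -/
def IsExact (Λ : Set ℂ) : Prop :=
  closedSpan (expo '' Λ) = Set.univ ∧ ∀ z ∈ Λ, expo z ∉ closedSpan (expo '' (Λ \ {z}))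

/-- The family `g z`, `z ∈ Λ`, is biorthogonal to the exponentials with frequencies in `Λ`.
(The inner product is linear in the second argument.) -/
def IsBiorthogonal (Λ : Set ℂ) (g : ℂ → LTwo) : Prop :=
  (∀ z ∈ Λ, ⟪g z, expo z⟫_ℂ = 1) ∧ ∀ z ∈ Λ, ∀ w ∈ Λ, w ≠ z → ⟪g z, expo w⟫_ℂ = 0

/-- Hereditary completeness: every `f` lies in the closed span of the terms of its formal
series. -/
def IsHereditarilyComplete (Λ : Set ℂ) (g : ℂ → LTwo) : Prop :=
  ∀ f : LTwo, f ∈ closedSpan ((fun z => ⟪g z, f⟫_ℂ • expo z) '' Λ)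

/-- A linear summation method (a regular Toeplitz matrix). -/
def IsSummationMethod (R : ℕ → ℕ → ℂ) : Prop :=
  (∃ M : ℝ, ∀ j, Summable (fun k => ‖R j k‖) ∧ ∑' k, ‖R j k‖ ≤ M) ∧
    (∀ k, Tendsto (fun j => R j k) atTop (𝓝 0)) ∧
    Tendsto (fun j => ∑' k, R j k) atTop (𝓝 1)

/-- The series with terms `v n` is `R`-summable to `s`: for all large `j` the series over `k` of
`R j k` times the `k`-th sum of the series converges to some vector `σ j`, and `σ j` tends
to `s`. -/
def SummableBy (R : ℕ → ℕ → ℂ) (v : ℕ → LTwo) (s : LTwo) : Prop :=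
  ∃ σ : ℕ → LTwo,
    (∀ᶠ j in atTop, Tendsto
      (fun K => ∑ k ∈ Finset.range K, R j k • ∑ n ∈ Finset.range (k + 1), v n) atTop (𝓝 (σ j))) ∧
    Tendsto σ atTop (𝓝 s)

/-- Linear summation basis: some enumeration of `Λ` and some method `R` sum the formal series of
every `f` to `f`. -/
def IsLinearSummationBasis (Λ : Set ℂ) (g : ℂ → LTwo) : Prop :=
  ∃ (e : ℕ ≃ Λ) (R : ℕ → ℕ → ℂ), IsSummationMethod R ∧
    ∀ f : LTwo, SummableBy R (fun n => ⟪g (e n), f⟫_ℂ • expo (e n)) f

end Pool.Agent.Lib.MP_e70876_an
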