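import Pool.Agent.Lib.MP_e70876_an.Params

/-!
Elementary lemmas on sums over integers.
-/

namespace Pool.Agent.Lib.MP_e70876_an

open Filter Topology

theorem sum_inv_sq_aux (Y : ℕ) (hY : 1 ≤ Y) (t : Finset ℤ)
    (hinj : Set.InjOn Int.natAbs (t : Set ℤ)) (ht : ∀ n ∈ t, Y < n.natAbs) :
    ∑ n ∈ t, 1 / (n : ℝ) ^ 2 ≤ 1 / (Y : ℝ) := by
  have h1 : ∑ n ∈ t, 1 / (n : ℝ) ^ 2 = ∑ k ∈ t.image Int.natAbs, (((k : ℝ)) ^ 2)⁻¹ := by
    rw [Finset.sum_image hinj]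
    refine Finset.sum_congr rfl fun n _ => ?_
    rw [one_div, Nat.cast_natAbs, Int.cast_abs, sq_abs]
  rw [h1]
  set N := max Y ((t.image Int.natAbs).sup id) with hN
  have h2 : t.image Int.natAbs ⊆ Finset.Ioc Y N := by
    intro k hk
    rw [Finset.mem_Ioc]
    constructor
    · obtain ⟨n, hn, rfl⟩ := Finset.mem_image.1 hk
      exact ht n hn
    · exact le_max_of_le_right (Finset.le_sup (f := id) hk)
  have h3 := sum_Ioc_inv_sq_le_sub (α := ℝ) (k := Y) (n := N) (by omega) (le_max_left _ _)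
  have h4 : (0 : ℝ) ≤ (N : ℝ)⁻¹ := by positivity
  calc _ ≤ ∑ k ∈ Finset.Ioc Y N, (((k : ℝ)) ^ 2)⁻¹ :=
        Finset.sum_le_sum_of_subset_of_nonneg h2 (fun _ _ _ => by positivity)
    _ ≤ _ := by rw [one_div]; linarith

theorem sum_inv_sq_le (Y : ℕ) (hY : 1 ≤ Y) (s : Finset ℤ) (hs : ∀ n ∈ s, (Y : ℝ) < |(n : ℝ)|) :
    ∑ n ∈ s, 1 / (n : ℝ) ^ 2 ≤ 2 / (Y : ℝ) := by
  have hs' : ∀ n ∈ s, Y < n.natAbs := by
    intro n hn
    have := hs n hn
    rw [← Int.cast_abs, ← Nat.cast_natAbs] at this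
    exact_mod_cast this
  rw [← Finset.sum_filter_add_sum_filter_not s (fun n => 0 ≤ n)]
  have h1 := sum_inv_sq_aux Y hY (s.filter fun n => 0 ≤ n) (by
    intro a ha b hb hab
    simp only [Finset.coe_filter, Set.mem_ofPred_eq] at ha hb
    omega) (fun n hn => hs' n (Finset.mem_filter.1 hn).1)
  have h2 := sum_inv_sq_aux Y hY (s.filter fun n => ¬ 0 ≤ n) (by
    intro a ha b hb hab
    simp only [Finset.coe_filter, Set.mem_ofPred_eq] at ha hb
    omega) (fun n hn => hs' n (Finset.mem_filter.1 hn).1)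
  have : (2 : ℝ) / Y = 1 / Y + 1 / Y := by ring
  linarith

theorem card_le_of_near (c r : ℝ) (hr : 0 ≤ r) (s : Finset ℤ) (hs : ∀ n ∈ s, |(n : ℝ) - c| < r) :
    (s.card : ℝ) ≤ 2 * r + 1 := by
  have h1 : s ⊆ Finset.Ioo ⌊c - r⌋ ⌈c + r⌉ := by
    intro n hn
    have h := abs_lt.1 (hs n hn)
    rw [Finset.mem_Ioo]
    constructor
    · rw [Int.floor_lt]; linarith
    · rw [Int.lt_ceil]; linarith
  have h2 := Finset.card_le_card h1
  rw [Int.card_Ioo] at h2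
  have h3 := Int.ceil_lt_add_one (c + r)
  have h4 := Int.sub_one_lt_floor (c - r)
  have h5 : ((⌈c + r⌉ - ⌊c - r⌋ - 1).toNat : ℝ) ≤ 2 * r + 1 := by
    rcases le_or_gt 0 (⌈c + r⌉ - ⌊c - r⌋ - 1) with h | h
    · have : (((⌈c + r⌉ - ⌊c - r⌋ - 1).toNat : ℤ) : ℝ) = (⌈c + r⌉ - ⌊c - r⌋ - 1 : ℤ) := by
        rw [Int.toNat_of_nonneg h]
      push_cast at this
      rw [this]; linarith
    · rw [Int.toNat_of_nonpos h.le]; simp; linarith
  calc (s.card : ℝ) ≤ ((⌈c + r⌉ - ⌊c - r⌋ - 1).toNat : ℝ) := by exact_mod_cast h2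
    _ ≤ _ := h5

theorem card_le_of_abs_le (X : ℝ) (hX : 1 ≤ X) (s : Finset ℤ) (hs : ∀ n ∈ s, |(n : ℝ)| ≤ X) :
    (s.card : ℝ) ≤ 4 * X := by
  have := card_le_of_near 0 (X + 1 / 2) (by linarith) s (fun n hn => by
    have := hs n hn
    rw [sub_zero]; linarith)
  linarith

/-- The local obstruction: a function `Q - P / n` has a single simple zero. -/
theorem local_bound (s : Finset ℤ) (hs : ∀ n ∈ s, n ≠ 0) (a : ℤ → ℝ) (ha : ∀ n, 0 ≤ a n)
    (P Q : ℂ) {σ θ : ℝ} (hσ : 0 < σ) (hθ : 0 < θ) :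
    ∑ n ∈ s, ‖Q‖ * a n ≤ θ * (‖Q‖ ^ 2 / (2 * σ) + 1) + σ * (∑ n ∈ s, a n ^ 2) / (2 * θ) +
      (1 + ‖P‖ * ‖Q‖ / σ) * ((∑ n ∈ s, ‖Q - P / n‖ ^ 2) + ∑ n ∈ s, a n ^ 2) / 2 := by
  have hA : 0 ≤ ∑ n ∈ s, a n ^ 2 := Finset.sum_nonneg fun _ _ => by positivity
  have hB : 0 ≤ ∑ n ∈ s, ‖Q - P / n‖ ^ 2 := Finset.sum_nonneg fun _ _ => by positivity
  rcases eq_or_ne Q 0 with rfl | hQ
  · simp only [norm_zero, zero_mul, Finset.sum_const_zero]
    positivity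
  have hQ' : 0 < ‖Q‖ := norm_pos_iff.2 hQ
  rw [← Finset.sum_filter_add_sum_filter_not s (fun n : ℤ => ‖Q‖ * ‖Q * n - P‖ < σ)]
  set near := s.filter (fun n : ℤ => ‖Q‖ * ‖Q * n - P‖ < σ) with hnear
  set far := s.filter (fun n : ℤ => ¬ ‖Q‖ * ‖Q * n - P‖ < σ) with hfar
  have hcard : (near.card : ℝ) ≤ 2 * (σ / ‖Q‖ ^ 2) + 1 := by
    apply card_le_of_near (P / Q).re _ (by positivity)
    intro n hn
    have h := (Finset.mem_filter.1 hn).2
    have h1 : |(n : ℝ) - (P / Q).re| ≤ ‖(n : ℂ) - P / Q‖ := by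
      have := Complex.abs_re_le_norm ((n : ℂ) - P / Q)
      simpa using this
    have h2 : ‖Q * n - P‖ = ‖Q‖ * ‖(n : ℂ) - P / Q‖ := by
      rw [← norm_mul]; congr 1; field_simp
    rw [h2] at h
    rw [lt_div_iff₀ (by positivity)]
    nlinarith [abs_nonneg ((n : ℝ) - (P / Q).re)]
  have h1 : ∑ n ∈ near, ‖Q‖ * a n ≤ θ * (‖Q‖ ^ 2 / (2 * σ) + 1) +
      σ * (∑ n ∈ s, a n ^ 2) / (2 * θ) := by
    calc ∑ n ∈ near, ‖Q‖ * a n
        ≤ ∑ n ∈ near, (θ * ‖Q‖ ^ 2 / (2 * σ) + σ * a n ^ 2 / (2 * θ)) := by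
          refine Finset.sum_le_sum fun n _ => ?_
          have : 0 ≤ (θ * ‖Q‖ - σ * a n) ^ 2 / (2 * σ * θ) := by positivity
          have e : θ * ‖Q‖ ^ 2 / (2 * σ) + σ * a n ^ 2 / (2 * θ) - ‖Q‖ * a n =
              (θ * ‖Q‖ - σ * a n) ^ 2 / (2 * σ * θ) := by field_simp; ring
          linarith
      _ = near.card * (θ * ‖Q‖ ^ 2 / (2 * σ)) + σ * (∑ n ∈ near, a n ^ 2) / (2 * θ) := by
          rw [Finset.sum_add_distrib, Finset.sum_const, nsmul_eq_mul, Finset.mul_sum,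
            Finset.sum_div]
      _ ≤ (2 * (σ / ‖Q‖ ^ 2) + 1) * (θ * ‖Q‖ ^ 2 / (2 * σ)) +
            σ * (∑ n ∈ s, a n ^ 2) / (2 * θ) := by
          gcongr
          exact Finset.filter_subset _ _
      _ = _ := by field_simp; ring
  have h2 : ∑ n ∈ far, ‖Q‖ * a n ≤
      (1 + ‖P‖ * ‖Q‖ / σ) * ((∑ n ∈ s, ‖Q - P / n‖ ^ 2) + ∑ n ∈ s, a n ^ 2) / 2 := by
    have hc : 0 ≤ 1 + ‖P‖ * ‖Q‖ / σ := by positivity
    calc ∑ n ∈ far, ‖Q‖ * a n
        ≤ ∑ n ∈ far, (1 + ‖P‖ * ‖Q‖ / σ) * (‖Q - P / n‖ ^ 2 + a n ^ 2) / 2 := by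
          refine Finset.sum_le_sum fun n hn => ?_
          have hn0 : (n : ℂ) ≠ 0 := by exact_mod_cast hs n (Finset.mem_filter.1 hn).1
          have hn1 : 0 < ‖(n : ℂ)‖ := norm_pos_iff.2 hn0
          have h := not_lt.1 (Finset.mem_filter.1 hn).2
          have e1 : ‖Q * n - P‖ = ‖Q - P / n‖ * ‖(n : ℂ)‖ := by
            rw [← norm_mul]; congr 1; field_simp
          rw [e1] at h
          have e2 : ‖Q‖ ≤ ‖Q - P / n‖ + ‖P‖ / ‖(n : ℂ)‖ := by
            rw [← norm_div]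
            calc ‖Q‖ = ‖(Q - P / n) + P / n‖ := by congr 1; ring
              _ ≤ _ := norm_add_le _ _
          have e3 : ‖P‖ / ‖(n : ℂ)‖ ≤ ‖P‖ * ‖Q‖ / σ * ‖Q - P / n‖ := by
            rw [div_mul_eq_mul_div, div_le_div_iff₀ hn1 hσ]
            have := norm_nonneg P
            nlinarith
          have e4 : ‖Q‖ ≤ (1 + ‖P‖ * ‖Q‖ / σ) * ‖Q - P / n‖ := by nlinarith
          have e5 : ‖Q - P / n‖ * a n ≤ (‖Q - P / n‖ ^ 2 + a n ^ 2) / 2 := by
            nlinarith [sq_nonneg (‖Q - P / n‖ - a n)]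
          calc ‖Q‖ * a n ≤ (1 + ‖P‖ * ‖Q‖ / σ) * ‖Q - P / n‖ * a n := by
                have := ha n
                gcongr
            _ = (1 + ‖P‖ * ‖Q‖ / σ) * (‖Q - P / n‖ * a n) := by ring
            _ ≤ (1 + ‖P‖ * ‖Q‖ / σ) * ((‖Q - P / n‖ ^ 2 + a n ^ 2) / 2) := by gcongr
            _ = _ := by ring
      _ ≤ ∑ n ∈ s, (1 + ‖P‖ * ‖Q‖ / σ) * (‖Q - P / n‖ ^ 2 + a n ^ 2) / 2 :=
          Finset.sum_le_sum_of_subset_of_nonneg (Finset.filter_subset _ _)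
            (fun _ _ _ => by positivity)
      _ = _ := by
          rw [← Finset.sum_add_distrib, Finset.mul_sum, Finset.sum_div]
  linarith

theorem frequently_small (m : ℕ → ℝ) (hm : Summable m) {x : ℝ} (hx : 0 < x) :
    ∃ᶠ j in atTop, tt j * m j < x := by
  by_contra h
  rw [Filter.not_frequently] at h
  have h1 : Summable fun j => x / tt j := by
    refine Summable.of_norm_bounded_eventually_nat hm ?_
    filter_upwards [h] with j hj
    have ht := tt_pos j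
    rw [Real.norm_of_nonneg (by positivity), div_le_iff₀ ht]
    have := not_lt.1 hj
    linarith
  have h2 : Summable fun j : ℕ => 1 / ((j + 3 : ℕ) : ℝ) := by
    have := h1.mul_left x⁻¹
    refine this.congr fun j => ?_
    unfold tt; push_cast; field_simp
  exact Real.not_summable_one_div_natCast ((summable_nat_add_iff 3).1 h2)

theorem summable_of_forward {U b : ℕ → ℝ} (hb : Summable b) (hb0 : ∀ j, 0 ≤ b j)
    (hU : ∀ j, 0 ≤ U j) (h : ∀ j, U (j + 1) ≤ U j / 2 + b j) : Summable U := by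
  refine summable_of_sum_range_le hU (c := 2 * U 0 + 2 * ∑' j, b j) fun J => ?_
  have key : ∀ J, ∑ j ∈ Finset.range J, U j + 2 * U J ≤
      2 * U 0 + 2 * ∑ j ∈ Finset.range J, b j := by
    intro J
    induction J with
    | zero => simp
    | succ J ih =>
      rw [Finset.sum_range_succ, Finset.sum_range_succ]
      have := h J
      linarith
  have h1 := key J
  have h2 := hb.sum_le_tsum (Finset.range J) (fun j _ => hb0 j)
  have := hU J
  linarith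

theorem summable_of_backward {V b : ℕ → ℝ} (hb : Summable b) (hb0 : ∀ j, 0 ≤ b j)
    (hV : ∀ j, 0 ≤ V j) {C : ℝ} (hC : ∀ j, V j ≤ C) (h : ∀ j, V j ≤ V (j + 1) / 2 + b j) :
    Summable V := by
  refine summable_of_sum_range_le hV (c := C + 2 * ∑' j, b j) fun J => ?_
  have key : ∀ J, ∑ j ∈ Finset.range J, V j + V 0 ≤
      V J + 2 * ∑ j ∈ Finset.range J, b j := by
    intro J
    induction J with
    | zero => simp
    | succ J ih =>
      rw [Finset.sum_range_succ, Finset.sum_range_succ]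
      have := h J
      linarith
  have h1 := key J
  have h2 := hb.sum_le_tsum (Finset.range J) (fun j _ => hb0 j)
  have := hV 0
  have := hC J
  linarith

end Pool.Agent.Lib.MP_e70876_an
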