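import Pool.Agent.Lib.MP_e70876_an.Defs

/-!
The trigonometric basis of the space of square integrable functions on the interval from minus pi
to pi, and the coefficients of exponentials with half-integer frequencies.
-/

namespace Pool.Agent.Lib.MP_e70876_an

open MeasureTheory Filter Topology
open scoped InnerProductSpace

theorem inner_expo_left (n : ℤ) (f : LTwo) :
    ⟪expo n, f⟫_ℂ = ∫ t in (-Real.pi)..Real.pi, Complex.exp (-(Complex.I * n * t)) * f t := by
  rw [MeasureTheory.L2.inner_def, intervalIntegral.integral_of_le (by linarith [Real.pi_pos]),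
    integral_Ioc_eq_integral_Ioo]
  refine integral_congr_ae ?_
  filter_upwards [(memLp_expo n).coeFn_toLp] with t ht
  rw [RCLike.inner_apply']
  unfold expo
  rw [ht, ← Complex.exp_conj]
  simp

theorem inner_expo_expo (n : ℤ) (z : ℂ) :
    ⟪expo n, expo z⟫_ℂ = ∫ t in (-Real.pi)..Real.pi, Complex.exp ((Complex.I * (z - n)) * t) := by
  rw [inner_expo_left, intervalIntegral.integral_of_le (by linarith [Real.pi_pos]),
    intervalIntegral.integral_of_le (by linarith [Real.pi_pos]),
    integral_Ioc_eq_integral_Ioo, integral_Ioc_eq_integral_Ioo]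
  refine integral_congr_ae ?_
  filter_upwards [(memLp_expo z).coeFn_toLp] with t ht
  unfold expo
  rw [ht, ← Complex.exp_add]
  congr 1; ring

theorem inner_expo_self (n : ℤ) : ⟪expo n, expo n⟫_ℂ = 2 * Real.pi := by
  rw [inner_expo_expo]
  simp
  ring

theorem inner_expo_ne (n : ℤ) {z : ℂ} (hz : z - n ≠ 0) :
    ⟪expo n, expo z⟫_ℂ = 2 * Complex.sin ((z - n) * Real.pi) / (z - n) := by
  rw [inner_expo_expo, integral_exp_mul_complex (mul_ne_zero Complex.I_ne_zero hz),
    Complex.two_sin]
  have hI := Complex.I_ne_zero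
  rw [div_eq_div_iff (mul_ne_zero hI hz) hz]
  push_cast
  rw [show Complex.I * (z - n) * -(Real.pi : ℂ) = -((z - n) * Real.pi) * Complex.I by ring,
    show Complex.I * (z - n) * (Real.pi : ℂ) = ((z - n) * Real.pi) * Complex.I by ring]
  linear_combination
    (Complex.exp ((z - n) * Real.pi * Complex.I) - Complex.exp (-((z - n) * Real.pi) * Complex.I))
      * (z - n) * Complex.I_mul_I

theorem inner_expo_int {n m : ℤ} (h : n ≠ m) : ⟪expo n, expo m⟫_ℂ = 0 := by
  have h1 : (m : ℂ) - n ≠ 0 := by
    rw [sub_ne_zero]; exact_mod_cast h.symm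
  rw [inner_expo_ne n h1]
  have : ((m : ℂ) - n) * Real.pi = ((m - n : ℤ) : ℂ) * Real.pi := by push_cast; ring
  rw [this, Complex.sin_int_mul_pi]
  simp

theorem inner_expo_half (n N : ℤ) {x : ℝ} (hx : x = N + 1 / 2) :
    ⟪expo n, expo x⟫_ℂ = 2 * (-1) ^ (N - n) / ((x - n : ℝ) : ℂ) := by
  have h0 : x - n ≠ 0 := by
    intro h
    have h2 : (2 * (n - N) : ℝ) = 1 := by linarith
    have h3 : 2 * (n - N) = 1 := by exact_mod_cast h2
    omega
  have h1 : (x : ℂ) - n ≠ 0 := by exact_mod_cast h0
  rw [inner_expo_ne n h1]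
  have e : ((x : ℂ) - n) * Real.pi = ((Real.pi / 2 + ((N - n : ℤ) : ℝ) * Real.pi : ℝ) : ℂ) := by
    rw [hx]; push_cast; ring
  rw [e, ← Complex.ofReal_sin, Real.sin_add_int_mul_pi, Real.sin_pi_div_two]
  push_cast
  simp

/-- Normalizing constant. -/
noncomputable def sq2pi : ℝ := √(2 * Real.pi)

theorem sq2pi_pos : 0 < sq2pi := Real.sqrt_pos.2 (by have := Real.pi_pos; positivity)

theorem sq2pi_mul : (sq2pi : ℂ) * sq2pi = 2 * Real.pi := by
  have : sq2pi * sq2pi = 2 * Real.pi := Real.mul_self_sqrt (by have := Real.pi_pos; positivity)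
  exact_mod_cast this

/-- The normalized trigonometric system with alternating signs. -/
noncomputable def trig (n : ℤ) : LTwo := ((((-1) ^ n / sq2pi : ℝ)) : ℂ) • expo n

theorem neg_one_zpow_mul_self (n : ℤ) : ((-1 : ℂ) ^ n) * (-1) ^ n = 1 := by
  rw [← mul_zpow]; simp

theorem orthonormal_trig : Orthonormal ℂ trig := by
  rw [orthonormal_iff_ite]
  intro n m
  unfold trig
  rw [inner_smul_left, inner_smul_right, Complex.conj_ofReal]
  split_ifs with h
  · subst h
    rw [inner_expo_self, ← sq2pi_mul]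
    have h1 : (sq2pi : ℂ) ≠ 0 := by exact_mod_cast sq2pi_pos.ne'
    have h2 := neg_one_zpow_mul_self n
    push_cast
    field_simp
    linear_combination h2
  · rw [inner_expo_int h]; simp

theorem eq_zero_of_inner_expo {f : LTwo} (h : ∀ n : ℤ, ⟪expo n, f⟫_ℂ = 0) : f = 0 := by
  have hab : -Real.pi < Real.pi := by linarith [Real.pi_pos]
  have hf : MemLp (f : ℝ → ℂ) 2 (volume.restrict (Set.Ioc (-Real.pi) Real.pi)) := by
    rw [← Measure.restrict_congr_set Ioo_ae_eq_Ioc]
    exact Lp.memLp f
  have h1 := hasSum_sq_fourierCoeffOn hab hf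
  have h2 : ∀ n, fourierCoeffOn hab (f : ℝ → ℂ) n = 0 := by
    intro n
    rw [fourierCoeffOn_eq_integral]
    have h3 := h n
    rw [inner_expo_left] at h3
    have : ∀ x : ℝ, fourier (-n) (x : AddCircle (Real.pi - -Real.pi)) • (f : ℝ → ℂ) x =
        Complex.exp (-(Complex.I * n * x)) * f x := by
      intro x
      rw [fourier_coe_apply, smul_eq_mul]
      congr 2
      have : (Real.pi : ℂ) ≠ 0 := by exact_mod_cast Real.pi_pos.ne'
      push_cast
      field_simp
      ring
    simp only [this, h3, smul_zero]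
  simp only [h2, norm_zero, ne_eq, OfNat.ofNat_ne_zero, not_false_eq_true, zero_pow] at h1
  have h4 := h1.unique hasSum_zero
  rw [smul_eq_zero] at h4
  have h5 : ∫ x in (-Real.pi)..Real.pi, ‖(f : ℝ → ℂ) x‖ ^ 2 = 0 := by
    refine h4.resolve_left (inv_ne_zero ?_)
    linarith [Real.pi_pos]
  rw [intervalIntegral.integral_of_le hab.le, integral_Ioc_eq_integral_Ioo] at h5
  rw [← inner_self_eq_zero (𝕜 := ℂ), MeasureTheory.L2.inner_def]
  simp only [inner_self_eq_norm_sq_to_K]
  have h6 := congrArg (fun r : ℝ => (r : ℂ)) h5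
  simp only [← integral_complex_ofReal] at h6
  simpa using h6

/-- The trigonometric orthonormal basis. -/
noncomputable def trigBasis : HilbertBasis ℤ ℂ LTwo :=
  HilbertBasis.mkOfOrthogonalEqBot orthonormal_trig (by
    rw [Submodule.eq_bot_iff]
    intro f hf
    refine eq_zero_of_inner_expo fun n => ?_
    have h := Submodule.inner_right_of_mem_orthogonal
      (Submodule.subset_span (Set.mem_range_self n)) hf
    unfold trig at h
    rw [inner_smul_left, Complex.conj_ofReal, mul_eq_zero] at h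
    refine h.resolve_left ?_
    have h1 : ((-1 : ℝ) ^ n / sq2pi) ≠ 0 :=
      div_ne_zero (zpow_ne_zero n (by norm_num)) sq2pi_pos.ne'
    exact_mod_cast h1)

theorem trigBasis_apply (n : ℤ) : trigBasis n = trig n := by
  unfold trigBasis
  rw [HilbertBasis.coe_mkOfOrthogonalEqBot]

end Pool.Agent.Lib.MP_e70876_an
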