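import Pool.Agent.Lib.MP_e70876_an.Elem

/-!
The Cauchy-type kernel `LL i / (lam i - n)` and estimates of the sums built from it.
-/

namespace Pool.Agent.Lib.MP_e70876_an

open Filter Topology

/-- The normalized Cauchy kernel. -/
noncomputable def ker (i : ℕ) (n : ℤ) : ℝ := LL i / (lam i - n)

theorem ker_low {i j : ℕ} (hij : i ≤ j) {n : ℤ} (hn : 2 * lam j ≤ |(n : ℝ)|) :
    |ker i n| ≤ 2 * LL i / |(n : ℝ)| ∧
      |ker i n + LL i / n| ≤ 2 * LL i * lam j / (n : ℝ) ^ 2 := by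
  have hl := lam_pos i
  have hL := LL_pos i
  have hij' : lam i ≤ lam j := lam_strictMono.monotone hij
  have hlj := lam_pos j
  have hn0 : 0 < |(n : ℝ)| := by linarith
  have hn1 : (n : ℝ) ≠ 0 := abs_pos.1 hn0
  have hd : |(n : ℝ)| / 2 ≤ |lam i - n| := by
    have h1 : |(n : ℝ)| ≤ |lam i - n| + |lam i| := by
      have := abs_sub (lam i) (lam i - n)
      rw [show lam i - (lam i - n) = n by ring] at this
      linarith
    rw [abs_of_pos hl] at h1
    linarith
  have hd0 : 0 < |lam i - n| := by linarith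
  constructor
  · unfold ker
    rw [abs_div, abs_of_pos hL, div_le_div_iff₀ hd0 hn0]
    nlinarith
  · have e : ker i n + LL i / n = LL i * lam i / (n * (lam i - n)) := by
      unfold ker
      have := lam_ne_int i n
      field_simp; ring
    rw [e, abs_div, abs_mul, abs_mul, abs_of_pos hL, abs_of_pos hl,
      div_le_div_iff₀ (by positivity) (by positivity), ← sq_abs (n : ℝ)]
    calc LL i * lam i * |(n : ℝ)| ^ 2 = 2 * LL i * lam i * (|(n : ℝ)| * (|(n : ℝ)| / 2)) := by ring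
      _ ≤ 2 * LL i * lam j * (|(n : ℝ)| * |lam i - n|) := by gcongr

theorem ker_high {i j : ℕ} (hij : j ≤ i) {n : ℤ} (hn : 2 * |(n : ℝ)| ≤ lam j) :
    |ker i n| ≤ 2 * rr i ∧ |ker i n - rr i| ≤ 2 * |(n : ℝ)| / lam j * rr i := by
  have hl := lam_pos i
  have hlj := lam_pos j
  have hL := LL_pos i
  have hij' : lam j ≤ lam i := lam_strictMono.monotone hij
  have hd : lam i / 2 ≤ |lam i - n| := by
    have := le_abs_self (n : ℝ)
    have := le_abs_self (lam i - n)
    linarith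
  have hd0 : 0 < |lam i - n| := by linarith
  constructor
  · unfold ker rr
    rw [abs_div, abs_of_pos hL, ← mul_div_assoc, div_le_div_iff₀ hd0 hl]
    nlinarith
  · have e : ker i n - rr i = n / (lam i - n) * rr i := by
      unfold ker rr
      have := lam_ne_int i n
      field_simp; ring
    rw [e, abs_mul, abs_of_pos (rr_pos i), abs_div]
    refine mul_le_mul_of_nonneg_right ?_ (rr_pos i).le
    rw [div_le_div_iff₀ hd0 hlj]
    have := abs_nonneg (n : ℝ)
    nlinarith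

variable (β : ℕ → ℂ)

/-- The part of the Cauchy sum coming from the poles of index at most `j`. -/
noncomputable def Clow (j : ℕ) (n : ℤ) : ℂ := ∑ i ∈ Finset.range (j + 1), β i * (ker i n : ℝ)

/-- Leading coefficient of the lower part. -/
noncomputable def PP (j : ℕ) : ℂ := ∑ i ∈ Finset.range (j + 1), β i * (LL i : ℝ)

/-- Normalized majorant of the lower part. -/
noncomputable def UU (j : ℕ) : ℝ := (∑ i ∈ Finset.range (j + 1), ‖β i‖ * LL i) / LL j

/-- Leading coefficient of the upper part. -/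
noncomputable def QQ (j : ℕ) : ℂ := ∑' i, β (i + (j + 1)) * (rr (i + (j + 1)) : ℝ)

/-- Normalized majorant of the upper part. -/
noncomputable def VV (j : ℕ) : ℝ := (∑' i, ‖β (i + (j + 1))‖ * rr (i + (j + 1))) / rr (j + 1)

theorem UU_nonneg (j : ℕ) : 0 ≤ UU β j :=
  div_nonneg (Finset.sum_nonneg fun i _ => mul_nonneg (norm_nonneg _) (LL_pos i).le) (LL_pos j).le

theorem VV_nonneg (j : ℕ) : 0 ≤ VV β j :=
  div_nonneg (tsum_nonneg fun _ => mul_nonneg (norm_nonneg _) (rr_pos _).le) (rr_pos _).le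

theorem UU_mul (j : ℕ) : UU β j * LL j = ∑ i ∈ Finset.range (j + 1), ‖β i‖ * LL i := by
  unfold UU; have := LL_pos j; field_simp

theorem VV_mul (j : ℕ) :
    VV β j * rr (j + 1) = ∑' i, ‖β (i + (j + 1))‖ * rr (i + (j + 1)) := by
  unfold VV; have := rr_pos (j + 1); field_simp

theorem norm_PP_le (j : ℕ) : ‖PP β j‖ ≤ UU β j * LL j := by
  rw [UU_mul]
  refine (norm_sum_le _ _).trans (le_of_eq (Finset.sum_congr rfl fun i _ => ?_))
  rw [norm_mul, Complex.norm_real, Real.norm_of_nonneg (LL_pos i).le]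

theorem Clow_bound (j : ℕ) {n : ℤ} (hn : 2 * lam j ≤ |(n : ℝ)|) :
    ‖Clow β j n‖ ≤ 2 * (UU β j * LL j) / |(n : ℝ)| ∧
      ‖Clow β j n + PP β j / n‖ ≤ 2 * (UU β j * LL j) * lam j / (n : ℝ) ^ 2 := by
  rw [UU_mul]
  constructor
  · refine (norm_sum_le _ _).trans ?_
    rw [Finset.mul_sum, Finset.sum_div]
    refine Finset.sum_le_sum fun i hi => ?_
    have h := (ker_low (Nat.lt_succ_iff.1 (Finset.mem_range.1 hi)) hn).1
    rw [norm_mul, Complex.norm_real, Real.norm_eq_abs]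
    calc ‖β i‖ * |ker i n| ≤ ‖β i‖ * (2 * LL i / |(n : ℝ)|) := by gcongr
      _ = _ := by ring
  · unfold Clow PP
    rw [Finset.sum_div, ← Finset.sum_add_distrib]
    refine (norm_sum_le _ _).trans ?_
    rw [Finset.mul_sum, Finset.sum_mul, Finset.sum_div]
    refine Finset.sum_le_sum fun i hi => ?_
    have h := (ker_low (Nat.lt_succ_iff.1 (Finset.mem_range.1 hi)) hn).2
    have e : β i * (ker i n : ℝ) + β i * (LL i : ℝ) / n = β i * ((ker i n + LL i / n : ℝ) : ℂ) := by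
      push_cast; ring
    rw [e, norm_mul, Complex.norm_real, Real.norm_eq_abs]
    calc ‖β i‖ * |ker i n + LL i / n| ≤ ‖β i‖ * (2 * LL i * lam j / (n : ℝ) ^ 2) := by gcongr
      _ = _ := by ring

variable {β}

theorem exists_bound (hβ : Summable fun i => ‖β i‖ ^ 2) : ∃ B, 0 ≤ B ∧ ∀ i, ‖β i‖ ≤ B := by
  refine ⟨1 + ∑' i, ‖β i‖ ^ 2, by positivity, fun i => ?_⟩
  have h := hβ.le_tsum i (fun _ _ => by positivity)
  nlinarith [sq_nonneg (‖β i‖ - 1), norm_nonneg (β i)]

theorem summable_high (hβ : Summable fun i => ‖β i‖ ^ 2) (k : ℕ) :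
    Summable fun i => ‖β (i + k)‖ * rr (i + k) := by
  obtain ⟨B, hB0, hB⟩ := exists_bound hβ
  refine Summable.of_nonneg_of_le (fun i => mul_nonneg (norm_nonneg _) (rr_pos _).le)
    (fun i => ?_) (((summable_nat_add_iff k).2 summable_rr).mul_left B)
  have := rr_pos (i + k)
  gcongr
  exact hB _

theorem hasSum_VV (hβ : Summable fun i => ‖β i‖ ^ 2) (j : ℕ) :
    HasSum (fun i => ‖β (i + (j + 1))‖ * rr (i + (j + 1))) (VV β j * rr (j + 1)) := by
  rw [VV_mul]; exact (summable_high hβ _).hasSum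

theorem hasSum_QQ (hβ : Summable fun i => ‖β i‖ ^ 2) (j : ℕ) :
    HasSum (fun i => β (i + (j + 1)) * (rr (i + (j + 1)) : ℝ)) (QQ β j) := by
  refine (Summable.of_norm ?_).hasSum
  refine (summable_high hβ (j + 1)).congr fun i => ?_
  rw [norm_mul, Complex.norm_real, Real.norm_of_nonneg (rr_pos _).le]

theorem norm_QQ_le (hβ : Summable fun i => ‖β i‖ ^ 2) (j : ℕ) :
    ‖QQ β j‖ ≤ VV β j * rr (j + 1) := by
  refine (hasSum_QQ hβ j).norm_le_of_bounded (hasSum_VV hβ j) fun i => ?_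
  rw [norm_mul, Complex.norm_real, Real.norm_of_nonneg (rr_pos _).le]

theorem Chigh_bound (hβ : Summable fun i => ‖β i‖ ^ 2) (j : ℕ) {n : ℤ} {c : ℂ}
    (hc : HasSum (fun i => β i * (ker i n : ℝ)) c) (hn : 2 * |(n : ℝ)| ≤ lam (j + 1)) :
    ‖c - Clow β j n‖ ≤ 2 * (VV β j * rr (j + 1)) ∧
      ‖c - Clow β j n - QQ β j‖ ≤ 2 * |(n : ℝ)| / lam (j + 1) * (VV β j * rr (j + 1)) := by
  have h1 : HasSum (fun i => β (i + (j + 1)) * (ker (i + (j + 1)) n : ℝ)) (c - Clow β j n) :=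
    (hasSum_nat_add_iff' (j + 1)).2 hc
  constructor
  · refine h1.norm_le_of_bounded ((hasSum_VV hβ j).mul_left 2) fun i => ?_
    have h := (ker_high (Nat.le_add_left (j + 1) i) hn).1
    rw [norm_mul, Complex.norm_real, Real.norm_eq_abs]
    calc _ ≤ ‖β (i + (j + 1))‖ * (2 * rr (i + (j + 1))) := by gcongr
      _ = _ := by ring
  · refine (h1.sub (hasSum_QQ hβ j)).norm_le_of_bounded ((hasSum_VV hβ j).mul_left _) fun i => ?_
    have h := (ker_high (Nat.le_add_left (j + 1) i) hn).2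
    rw [← mul_sub, ← Complex.ofReal_sub, norm_mul, Complex.norm_real, Real.norm_eq_abs]
    calc _ ≤ ‖β (i + (j + 1))‖ * (2 * |(n : ℝ)| / lam (j + 1) * rr (i + (j + 1))) := by gcongr
      _ = _ := by ring

theorem UU_succ_le (β : ℕ → ℂ) (j : ℕ) : UU β (j + 1) ≤ UU β j / 2 + ‖β (j + 1)‖ := by
  have h1 := UU_mul β (j + 1)
  rw [Finset.sum_range_succ, ← UU_mul] at h1
  have h2 := LL_succ_ge j
  have h3 := LL_pos (j + 1)
  have h4 := UU_nonneg β j
  have : UU β (j + 1) * LL (j + 1) ≤ (UU β j / 2 + ‖β (j + 1)‖) * LL (j + 1) := by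
    rw [h1]; nlinarith
  exact le_of_mul_le_mul_right this h3

theorem summable_UU (hβ : Summable fun i => ‖β i‖ ^ 2) : Summable fun j => UU β j ^ 2 := by
  refine summable_of_forward (b := fun j => 2 * ‖β (j + 1)‖ ^ 2)
    (((summable_nat_add_iff 1).2 hβ).mul_left 2) (fun j => by positivity)
    (fun j => by positivity) fun j => ?_
  have h := UU_succ_le β j
  have h0 := UU_nonneg β (j + 1)
  have h1 : UU β (j + 1) ^ 2 ≤ (UU β j / 2 + ‖β (j + 1)‖) ^ 2 := by gcongr
  nlinarith [sq_nonneg (UU β j / 2 - ‖β (j + 1)‖)]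

theorem VV_le_succ (hβ : Summable fun i => ‖β i‖ ^ 2) (j : ℕ) :
    VV β j ≤ VV β (j + 1) / 2 + ‖β (j + 1)‖ := by
  have h1 := hasSum_VV hβ j
  have h2 := hasSum_VV hβ (j + 1)
  have h3 := (hasSum_nat_add_iff' 1).2 h1
  simp only [Finset.range_one, Finset.sum_singleton, zero_add] at h3
  have h4 : (fun i => ‖β (i + 1 + (j + 1))‖ * rr (i + 1 + (j + 1))) =
      fun i => ‖β (i + (j + 1 + 1))‖ * rr (i + (j + 1 + 1)) := by
    funext i
    rw [show i + 1 + (j + 1) = i + (j + 1 + 1) by ring]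
  rw [h4] at h3
  have h5 := h2.unique h3
  have h6 := rr_succ_half (j + 1)
  have h7 := rr_pos (j + 1)
  have h8 := VV_nonneg β (j + 1)
  have : VV β j * rr (j + 1) ≤ (VV β (j + 1) / 2 + ‖β (j + 1)‖) * rr (j + 1) := by
    nlinarith
  exact le_of_mul_le_mul_right this h7

theorem VV_bounded (hβ : Summable fun i => ‖β i‖ ^ 2) : ∃ C, ∀ j, VV β j ≤ C := by
  obtain ⟨B, hB0, hB⟩ := exists_bound hβ
  refine ⟨2 * B, fun j => ?_⟩
  have h7 := rr_pos (j + 1)
  have h1 : VV β j * rr (j + 1) ≤ B * rr (j + 1) * 2 := by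
    refine hasSum_le (fun i => ?_) (hasSum_VV hβ j) (hasSum_geometric_two.mul_left _)
    have := rr_add_le (j + 1) i
    have := rr_pos (i + (j + 1))
    calc _ ≤ B * (rr (j + 1) * (1 / 2) ^ i) := by gcongr; exact hB _
      _ = _ := by ring
  have : VV β j * rr (j + 1) ≤ 2 * B * rr (j + 1) := by linarith
  exact le_of_mul_le_mul_right this h7

theorem summable_VV (hβ : Summable fun i => ‖β i‖ ^ 2) : Summable fun j => VV β j ^ 2 := by
  obtain ⟨C, hC⟩ := VV_bounded hβ
  refine summable_of_backward (b := fun j => 2 * ‖β (j + 1)‖ ^ 2)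
    (((summable_nat_add_iff 1).2 hβ).mul_left 2) (fun j => by positivity)
    (fun j => by positivity) (C := C ^ 2) (fun j => ?_) fun j => ?_
  · have := VV_nonneg β j
    have := hC j
    gcongr
  · have h := VV_le_succ hβ j
    have h0 := VV_nonneg β j
    have h1 : VV β j ^ 2 ≤ (VV β (j + 1) / 2 + ‖β (j + 1)‖) ^ 2 := by gcongr
    nlinarith [sq_nonneg (VV β (j + 1) / 2 - ‖β (j + 1)‖)]

end Pool.Agent.Lib.MP_e70876_an
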