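import Pool.Agent.Lib.MP_e70876_an.Defs

/-!
A summation method for all biorthogonal expansions produces uniformly bounded diagonal operators
(Baire category and Banach-Steinhaus).
-/

namespace Pool.Agent.Lib.MP_e70876_an

open Filter Topology

variable {E : Type*} [NormedAddCommGroup E] [NormedSpace ℂ E] [CompleteSpace E]

theorem eventually_bounded (S : ℕ → ℕ → E →L[ℂ] E)
    (h : ∀ f, ∀ᶠ j in atTop, ∃ C, ∀ K, ‖S j K f‖ ≤ C) :
    ∀ᶠ j in atTop, ∃ C, ∀ K, ‖S j K‖ ≤ C := by
  by_contra hcon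
  rw [Filter.not_eventually] at hcon
  let F : {j // ¬ ∃ C, ∀ K, ‖S j K‖ ≤ C} × ℕ → Set E := fun p => {f | ∀ K, ‖S p.1.1 K f‖ ≤ p.2}
  have hc : ∀ p, IsClosed (F p) := by
    intro p
    simp only [F, Set.ofPred_forall]
    exact isClosed_iInter fun K => isClosed_le (by fun_prop) continuous_const
  have hU : ⋃ p, F p = Set.univ := by
    refine Set.eq_univ_of_forall fun f => ?_
    obtain ⟨j, hj1, C, hC⟩ := (hcon.and_eventually (h f)).exists
    obtain ⟨m, hm⟩ := exists_nat_ge C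
    exact Set.mem_iUnion.2 ⟨(⟨j, hj1⟩, m), fun K => (hC K).trans hm⟩
  obtain ⟨⟨⟨j, hj⟩, m⟩, f0, hf0⟩ := nonempty_interior_of_iUnion_of_closed hc hU
  obtain ⟨ε, hε, hball⟩ := Metric.mem_nhds_iff.1 (mem_interior_iff_mem_nhds.1 hf0)
  apply hj
  apply banach_steinhaus
  intro f
  set c : ℝ := ε / (2 * (‖f‖ + 1)) with hc
  have hc0 : 0 < c := by positivity
  have h1 : f0 + (c : ℂ) • f ∈ Metric.ball f0 ε := by
    rw [Metric.mem_ball, dist_eq_norm, add_sub_cancel_left, norm_smul, Complex.norm_real,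
      Real.norm_of_nonneg hc0.le, hc, div_mul_eq_mul_div, div_lt_iff₀ (by positivity)]
    have := norm_nonneg f
    nlinarith
  refine ⟨2 * m / c, fun K => ?_⟩
  have h2 : ‖S j K (f0 + (c : ℂ) • f)‖ ≤ m := hball h1 K
  have h3 : ‖S j K f0‖ ≤ m := hball (Metric.mem_ball_self hε) K
  have h4 : (c : ℂ) • S j K f = S j K (f0 + (c : ℂ) • f) - S j K f0 := by simp
  have h5 : c * ‖S j K f‖ ≤ 2 * m := by
    have := norm_sub_le (S j K (f0 + (c : ℂ) • f)) (S j K f0)
    rw [← h4, norm_smul, Complex.norm_real, Real.norm_of_nonneg hc0.le] at this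
    linarith
  rw [le_div_iff₀ hc0]
  linarith

omit [CompleteSpace E] in
theorem isClosed_cauchy (S : ℕ → E →L[ℂ] E) {C : ℝ} (hC : ∀ K, ‖S K‖ ≤ C) :
    IsClosed {f | CauchySeq fun K => S K f} := by
  have hC0 : 0 ≤ C := (norm_nonneg _).trans (hC 0)
  refine isClosed_of_closure_subset fun f hf => ?_
  rw [Set.mem_ofPred_eq, Metric.cauchySeq_iff]
  intro ε hε
  obtain ⟨g, hg, hfg⟩ := Metric.mem_closure_iff.1 hf (ε / (3 * (C + 1))) (by positivity)
  obtain ⟨N, hN⟩ := Metric.cauchySeq_iff.1 hg (ε / 3) (by positivity)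
  have key : ∀ K, dist (S K f) (S K g) ≤ ε / 3 := by
    intro K
    rw [dist_eq_norm, ← map_sub]
    rw [dist_eq_norm, lt_div_iff₀ (by positivity)] at hfg
    have h1 := (S K).le_of_opNorm_le (hC K) (f - g)
    have := norm_nonneg (f - g)
    nlinarith
  refine ⟨N, fun m hm n hn => ?_⟩
  have h1 := hN m hm n hn
  have h2 := dist_triangle4 (S m f) (S m g) (S n g) (S n f)
  have h3 := key m
  have h4 := key n
  rw [dist_comm] at h4
  linarith

theorem exists_multipliers (x : ℕ → E) (y : ℕ → E →L[ℂ] ℂ)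
    (hxy : ∀ n m, y n (x m) = if n = m then 1 else 0)
    (hdense : closure (Submodule.span ℂ (Set.range x) : Set E) = Set.univ)
    {R : ℕ → ℕ → ℂ} (hR : IsSummationMethod R)
    (hsum : ∀ f : E, ∃ σ : ℕ → E, (∀ᶠ j in atTop, Tendsto
      (fun K => ∑ k ∈ Finset.range K, R j k • ∑ n ∈ Finset.range (k + 1), y n f • x n) atTop
        (𝓝 (σ j))) ∧ Tendsto σ atTop (𝓝 f)) :
    ∃ (C : ℝ) (T : ℕ → E →L[ℂ] E) (w : ℕ → ℕ → ℂ), (∀ j, ‖T j‖ ≤ C) ∧
      (∀ j n, T j (x n) = w j n • x n) ∧ (∀ n, Tendsto (fun j => w j n) atTop (𝓝 1)) ∧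
      ∀ j, Tendsto (w j) atTop (𝓝 0) := by
  obtain ⟨⟨M, hM⟩, hR2, hR3⟩ := hR
  let S : ℕ → ℕ → E →L[ℂ] E := fun j K =>
    ∑ k ∈ Finset.range K, R j k • ∑ n ∈ Finset.range (k + 1), (y n).smulRight (x n)
  have hS : ∀ j K f, S j K f =
      ∑ k ∈ Finset.range K, R j k • ∑ n ∈ Finset.range (k + 1), y n f • x n := by
    intro j K f
    simp [S]
  let w : ℕ → ℕ → ℂ := fun j n => (∑' k, R j k) - ∑ k ∈ Finset.range n, R j k
  have hsumm : ∀ j, Summable (R j) := fun j => (hM j).1.of_norm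
  have hSx : ∀ j n, Tendsto (fun K => S j K (x n)) atTop (𝓝 (w j n • x n)) := by
    intro j n
    have h1 : ∀ K, n ≤ K → S j K (x n) =
        ((∑ k ∈ Finset.range K, R j k) - ∑ k ∈ Finset.range n, R j k) • x n := by
      intro K hK
      rw [hS]
      have h2 : ∀ k, ∑ m ∈ Finset.range (k + 1), y m (x n) • x m = if n ≤ k then x n else 0 := by
        intro k
        simp only [hxy, ite_smul, one_smul, zero_smul, Finset.sum_ite_eq', Finset.mem_range,
          Nat.lt_succ_iff]
      simp only [h2]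
      rw [← Finset.sum_range_add_sum_Ico _ hK, ← Finset.sum_range_add_sum_Ico (R j) hK,
        add_sub_cancel_left, Finset.sum_smul, Finset.sum_eq_zero, zero_add]
      · refine Finset.sum_congr rfl fun k hk => ?_
        rw [if_pos (Finset.mem_Ico.1 hk).1]
      · intro k hk
        rw [if_neg (not_le.2 (Finset.mem_range.1 hk)), smul_zero]
    have h3 := (((hsumm j).hasSum.tendsto_sum_nat).sub_const
      (∑ k ∈ Finset.range n, R j k)).smul_const (x n)
    refine h3.congr' ?_
    filter_upwards [eventually_ge_atTop n] with K hK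
    exact (h1 K hK).symm
  have hgood := eventually_bounded S fun f => by
    obtain ⟨σ, h1, -⟩ := hsum f
    filter_upwards [h1] with j hj
    obtain ⟨C, hC⟩ := hj.norm.bddAbove_range
    exact ⟨C, fun K => by rw [hS]; exact hC ⟨K, rfl⟩⟩
  obtain ⟨j0, hj0⟩ := eventually_atTop.1 hgood
  have hconv : ∀ j f, ∃ l, Tendsto (fun K => S (j + j0) K f) atTop (𝓝 l) := by
    intro j f
    obtain ⟨C, hC⟩ := hj0 (j + j0) (Nat.le_add_left _ _)
    apply cauchySeq_tendsto_of_complete
    have h1 : (Submodule.span ℂ (Set.range x) : Set E) ⊆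
        {f | CauchySeq fun K => S (j + j0) K f} := by
      intro g hg
      have : ∃ l, Tendsto (fun K => S (j + j0) K g) atTop (𝓝 l) := by
        induction hg using Submodule.span_induction with
        | mem g hg =>
          obtain ⟨n, rfl⟩ := hg
          exact ⟨_, hSx _ n⟩
        | zero => exact ⟨0, by simp⟩
        | add a b _ _ ha hb =>
          obtain ⟨l1, h1⟩ := ha
          obtain ⟨l2, h2⟩ := hb
          exact ⟨l1 + l2, by simpa using h1.add h2⟩
        | smul c a _ ha =>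
          obtain ⟨l1, h1⟩ := ha
          exact ⟨c • l1, by simpa using h1.const_smul c⟩
      obtain ⟨l, hl⟩ := this
      exact hl.cauchySeq
    have h2 := closure_minimal h1 (isClosed_cauchy _ hC)
    rw [hdense] at h2
    exact h2 (Set.mem_univ f)
  choose t ht using hconv
  let T : ℕ → E →L[ℂ] E := fun j =>
    continuousLinearMapOfTendsto (fun K => S (j + j0) K) (f := t j) (tendsto_pi_nhds.2 (ht j))
  have hT : ∀ j f, T j f = t j f := fun j f => rfl
  have hTf : ∀ f, Tendsto (fun j => T j f) atTop (𝓝 f) := by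
    intro f
    obtain ⟨σ, h1, h2⟩ := hsum f
    refine (h2.comp (tendsto_add_atTop_nat j0)).congr' ?_
    filter_upwards [(tendsto_add_atTop_nat j0).eventually h1] with j hj
    rw [hT]
    refine tendsto_nhds_unique hj ?_
    simpa only [hS] using ht j f
  obtain ⟨C, hC⟩ := banach_steinhaus (g := T) fun f => by
    obtain ⟨C, hC⟩ := (hTf f).norm.bddAbove_range
    exact ⟨C, fun j => hC ⟨j, rfl⟩⟩
  refine ⟨C, T, fun j => w (j + j0), hC, fun j n => ?_, fun n => ?_, fun j => ?_⟩
  · rw [hT]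
    exact tendsto_nhds_unique (ht j (x n)) (hSx _ n)
  · have h1 : Tendsto (fun j => w j n) atTop (𝓝 (1 - ∑ k ∈ Finset.range n, 0)) :=
      hR3.sub (tendsto_finsetSum _ fun k _ => hR2 k)
    simp only [Finset.sum_const_zero, sub_zero] at h1
    exact h1.comp (tendsto_add_atTop_nat j0)
  · have h1 := ((hsumm (j + j0)).hasSum.tendsto_sum_nat).const_sub (∑' k, R (j + j0) k)
    rw [sub_self] at h1
    exact h1

end Pool.Agent.Lib.MP_e70876_an
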