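import Pool.Agent.Lib.MP_e70876_an.Biorth
import Pool.Agent.Lib.MP_e70876_an.Summ

/-!
Bounded diagonal operators for the system have almost constant multipliers along the new
frequencies; hence there is no summation method.
-/

namespace Pool.Agent.Lib.MP_e70876_an

open Filter Topology
open scoped InnerProductSpace

variable {H : Type*} [NormedAddCommGroup H] [InnerProductSpace ℂ H] [CompleteSpace H]
  (b : HilbertBasis ℤ ℂ H)

/-- The block of integers between two consecutive nodes. -/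
noncomputable def block (j : ℕ) : Finset ℤ :=
  Finset.Ioc ((mm j : ℤ) * mm (j + 1)) (2 * ((mm j : ℤ) * mm (j + 1)))

theorem card_block (j : ℕ) : ((block j).card : ℝ) = (mm j : ℝ) ^ 2 * tt j ^ 7 := by
  unfold block
  rw [Int.card_Ioc]
  have h : 2 * ((mm j : ℤ) * mm (j + 1)) - (mm j : ℤ) * mm (j + 1) =
      ((mm j * mm (j + 1) : ℕ) : ℤ) := by push_cast; ring
  rw [h, Int.toNat_natCast]
  push_cast
  rw [mm_succ]; ring

theorem mem_block {j : ℕ} {n : ℤ} (hn : n ∈ block j) :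
    (mm j : ℝ) ^ 2 * tt j ^ 7 < n ∧ (n : ℝ) ≤ 2 * ((mm j : ℝ) ^ 2 * tt j ^ 7) := by
  unfold block at hn
  rw [Finset.mem_Ioc] at hn
  have h1 : ((mm j : ℝ) * mm (j + 1)) < n := by exact_mod_cast hn.1
  have h2 : (n : ℝ) ≤ 2 * ((mm j : ℝ) * mm (j + 1)) := by exact_mod_cast hn.2
  rw [mm_succ] at h1 h2
  constructor <;> nlinarith

theorem block_bounds (j : ℕ) : 2 * (mm j : ℝ) ^ 2 ≤ (mm j : ℝ) ^ 2 * tt j ^ 7 ∧
    2 * ((mm j : ℝ) ^ 2 * tt j ^ 7) < (mm (j + 1) : ℝ) ^ 2 := by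
  have h := tt_pow_ge j 7
  have hm := mm_pos j
  have h2 : (0 : ℝ) < (mm j : ℝ) ^ 2 := by positivity
  have h3 : (0 : ℝ) < (mm j : ℝ) ^ 2 * tt j ^ 7 := by have := tt_pos j; positivity
  rw [sq_succ]
  constructor
  · nlinarith
  · have : (mm j : ℝ) ^ 2 * tt j ^ 14 = ((mm j : ℝ) ^ 2 * tt j ^ 7) * tt j ^ 7 := by ring
    rw [this]; nlinarith

theorem block_nonnode {j : ℕ} {n : ℤ} (hn : n ∈ block j) : n ∉ Set.range node := by
  rintro ⟨i, rfl⟩
  have h := mem_block hn
  have h2 := block_bounds j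
  rw [node_cast] at h
  have hm := mm_pos j
  have h3 : (0 : ℝ) < (mm j : ℝ) ^ 2 := by positivity
  rcases le_or_gt i j with hi | hi
  · have := sq_mono.monotone hi
    linarith [h.1, h2.1]
  · have := sq_mono.monotone (Nat.succ_le_of_lt hi)
    simp only [Nat.succ_eq_add_one] at this
    linarith [h.2, h2.2]

variable {k : ℕ → H} (hk : ∀ j n, ⟪b n, k j⟫_ℂ = (ker j n : ℝ))
  (W : H →L[ℂ] H) (w : Idx → ℂ) (hW : ∀ i, W (xv b k i) = w i • xv b k i)

omit [CompleteSpace H] in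
include hW in
theorem inner_W_of_zero {r : H} (hr : ∀ i, ⟪b (node i), r⟫_ℂ = 0) {n : ℤ}
    (hn : n ∉ Set.range node) : ⟪b n, W r⟫_ℂ = w (Sum.inl ⟨n, hn⟩) * ⟪b n, r⟫_ℂ := by
  have h := ((innerSL ℂ (b n)).comp W).hasSum (b.hasSum_repr r)
  simp only [ContinuousLinearMap.comp_apply, innerSL_apply_apply, map_smul, smul_eq_mul,
    HilbertBasis.repr_apply_apply] at h
  refine h.unique ((hasSum_ite_eq n _).congr_fun fun l => ?_)
  by_cases hl : l ∈ Set.range node
  · obtain ⟨i, rfl⟩ := hl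
    have : node i ≠ n := fun h => hn ⟨i, h⟩
    simp [hr, this]
  · have h1 : W (b l) = w (Sum.inl ⟨l, hl⟩) • b l := hW (Sum.inl ⟨l, hl⟩)
    rw [h1, inner_smul_right, inner_b]
    by_cases hln : l = n
    · subst hln
      simp [mul_comm]
    · simp [hln, Ne.symm hln]

include hk hW in
theorem block_estimate {C : ℝ} (hC : ‖W‖ ≤ C) (j : ℕ) (s : Finset ℤ) (ω : ℤ → ℂ)
    (hs : ∀ n ∈ s, ∃ hn : n ∉ Set.range node, ω n = w (Sum.inl ⟨n, hn⟩)) :
    ∑ n ∈ s, ‖w (Sum.inr j) - ω n‖ ^ 2 * ker j n ^ 2 ≤ 4 * C ^ 2 := by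
  have h1 := b.orthonormal.sum_inner_products_le (s := s) (W (b (node j) + dvec b j))
  have h2 : ‖W (b (node j) + dvec b j)‖ ≤ C * 2 := by
    refine (W.le_of_opNorm_le hC _).trans ?_
    have h3 := norm_add_le (b (node j)) (dvec b j)
    have h4 := norm_dvec_le b j
    have h5 : ((1 : ℝ) / 2) ^ j ≤ 1 := pow_le_one₀ (by norm_num) (by norm_num)
    rw [b.orthonormal.1] at h3
    have hC0 : 0 ≤ C := (norm_nonneg _).trans hC
    gcongr
    linarith
  have h3 : ‖W (b (node j) + dvec b j)‖ ^ 2 ≤ (C * 2) ^ 2 := by gcongr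
  refine le_trans (le_of_eq (Finset.sum_congr rfl fun n hn => ?_)) (h1.trans (by linarith))
  obtain ⟨hn', e⟩ := hs n hn
  have e1 : b (node j) + dvec b j = k j - (k j - (b (node j) + dvec b j)) := by abel
  have e2 : W (k j) = w (Sum.inr j) • k j := hW (Sum.inr j)
  rw [e1, map_sub, inner_sub_right, e2, inner_smul_right, hk,
    inner_W_of_zero b W w hW (inner_node_rest b hk · j) hn', inner_nonnode_rest b hk hn', ← e,
    ← sub_mul, norm_mul, mul_pow, Complex.norm_real, Real.norm_eq_abs, sq_abs]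

include hk hW in
theorem link {C : ℝ} (hC : ‖W‖ ≤ C) (j : ℕ) :
    ‖w (Sum.inr j) - w (Sum.inr (j + 1))‖ ^ 2 ≤ 64 * C ^ 2 / tt j ^ 3 := by
  classical
  let ω : ℤ → ℂ := fun n => if hn : n ∉ Set.range node then w (Sum.inl ⟨n, hn⟩) else 0
  have hs : ∀ n ∈ block j, ∃ hn : n ∉ Set.range node, ω n = w (Sum.inl ⟨n, hn⟩) :=
    fun n hn => ⟨block_nonnode hn, dif_pos (block_nonnode hn)⟩
  have h1 := block_estimate b hk W w hW hC j (block j) ω hs
  have h2 := block_estimate b hk W w hW hC (j + 1) (block j) ω hs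
  have hm := mm_pos j
  have ht := tt_pos j
  have hb := block_bounds j
  set y := (mm j : ℝ) ^ 2 * tt j ^ 7 with hy
  have hy0 : 0 < y := by positivity
  have k1 : ∀ n ∈ block j, tt j ^ 3 / (4 * y) ≤ ker j n ^ 2 := by
    intro n hn
    have h := mem_block hn
    have hl := lam_pos j
    have hl2 := lam_upper j
    have hd : |lam j - n| ≤ 2 * y := by
      rw [abs_le]; constructor <;> linarith [h.1, h.2, hb.1]
    have hd0 := half_le_abs_lam_sub j n
    rw [← sq_abs (ker j n), abs_ker]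
    have hL := LL_lower j
    calc tt j ^ 3 / (4 * y) = ((mm j : ℝ) * tt j ^ 5 / (2 * y)) ^ 2 := by
          rw [hy]; field_simp; norm_num
      _ ≤ _ := by
          have := LL_pos j
          gcongr
  have k2 : ∀ n ∈ block j, tt j ^ 3 / (4 * y) ≤ ker (j + 1) n ^ 2 := by
    intro n hn
    have h := mem_block hn
    have hl := lam_pos (j + 1)
    have hl2 := lam_lower (j + 1)
    have hd : |lam (j + 1) - n| ≤ lam (j + 1) := by
      rw [abs_le]; constructor <;> linarith [h.1, h.2, hb.2]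
    have hd0 := half_le_abs_lam_sub (j + 1) n
    rw [← sq_abs (ker (j + 1) n), abs_ker]
    have hr := rr_lower (j + 1)
    rw [mm_succ] at hr
    have h5 : tt j ^ 5 ≤ tt (j + 1) ^ 5 := pow_le_pow_left₀ ht.le (tt_le_succ j) 5
    calc tt j ^ 3 / (4 * y) = (tt j ^ 5 / (2 * ((mm j : ℝ) * tt j ^ 7))) ^ 2 := by
          rw [hy]; field_simp; norm_num
      _ ≤ (tt (j + 1) ^ 5 / (2 * ((mm j : ℝ) * tt j ^ 7))) ^ 2 := by gcongr
      _ ≤ rr (j + 1) ^ 2 := by
          have := tt_pos (j + 1)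
          gcongr
      _ ≤ _ := by
          unfold rr
          have := LL_pos (j + 1)
          gcongr
  have h3 : ∑ n ∈ block j, ‖w (Sum.inr j) - w (Sum.inr (j + 1))‖ ^ 2 * (tt j ^ 3 / (4 * y)) ≤
      ∑ n ∈ block j, (2 * (‖w (Sum.inr j) - ω n‖ ^ 2 * ker j n ^ 2) +
        2 * (‖w (Sum.inr (j + 1)) - ω n‖ ^ 2 * ker (j + 1) n ^ 2)) := by
    refine Finset.sum_le_sum fun n hn => ?_
    have a1 := k1 n hn
    have a2 := k2 n hn
    have a3 : ‖w (Sum.inr j) - w (Sum.inr (j + 1))‖ ≤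
        ‖w (Sum.inr j) - ω n‖ + ‖w (Sum.inr (j + 1)) - ω n‖ := by
      calc _ = ‖(w (Sum.inr j) - ω n) - (w (Sum.inr (j + 1)) - ω n)‖ := by congr 1; ring
        _ ≤ _ := norm_sub_le _ _
    set A := ‖w (Sum.inr j) - ω n‖
    set B := ‖w (Sum.inr (j + 1)) - ω n‖
    have a4 : ‖w (Sum.inr j) - w (Sum.inr (j + 1))‖ ^ 2 ≤ 2 * A ^ 2 + 2 * B ^ 2 := by
      have : ‖w (Sum.inr j) - w (Sum.inr (j + 1))‖ ^ 2 ≤ (A + B) ^ 2 := by gcongr
      nlinarith [sq_nonneg (A - B)]
    have a5 : 0 ≤ tt j ^ 3 / (4 * y) := by positivity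
    calc _ ≤ (2 * A ^ 2 + 2 * B ^ 2) * (tt j ^ 3 / (4 * y)) := by gcongr
      _ = 2 * (A ^ 2 * (tt j ^ 3 / (4 * y))) + 2 * (B ^ 2 * (tt j ^ 3 / (4 * y))) := by ring
      _ ≤ _ := by gcongr
  rw [Finset.sum_const, nsmul_eq_mul, card_block, Finset.sum_add_distrib, ← Finset.mul_sum,
    ← Finset.mul_sum, ← hy] at h3
  rw [le_div_iff₀ (by positivity)]
  have e : y * (‖w (Sum.inr j) - w (Sum.inr (j + 1))‖ ^ 2 * (tt j ^ 3 / (4 * y))) =
      ‖w (Sum.inr j) - w (Sum.inr (j + 1))‖ ^ 2 * tt j ^ 3 / 4 := by field_simp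
  rw [e] at h3
  linarith

/-- The summable sequence `(j+3)^(-3/2)`. -/
noncomputable def dd (j : ℕ) : ℝ := 1 / √(tt j ^ 3)

theorem summable_dd : Summable dd := by
  have h := (summable_nat_add_iff 3).2
    (Real.summable_one_div_nat_rpow.2 (by norm_num : (1 : ℝ) < 3 / 2))
  refine h.congr fun j => ?_
  unfold dd tt
  congr 1
  rw [Real.sqrt_eq_rpow, ← Real.rpow_natCast, ← Real.rpow_mul (by positivity)]
  push_cast
  norm_num

include hk hW in
theorem link' {C : ℝ} (hC : ‖W‖ ≤ C) (j : ℕ) :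
    dist (w (Sum.inr j)) (w (Sum.inr (j + 1))) ≤ 8 * C * dd j := by
  have h := link b hk W w hW hC j
  have hC0 : 0 ≤ C := (norm_nonneg _).trans hC
  have ht := tt_pos j
  rw [dist_eq_norm]
  refine (abs_le_of_sq_le_sq' ?_ (by unfold dd; positivity)).2
  refine h.trans (le_of_eq ?_)
  unfold dd
  rw [mul_pow, mul_pow, div_pow, Real.sq_sqrt (by positivity)]
  ring

include hk in
/-- No linear method sums all expansions. -/
theorem no_method (hdense : closure (Submodule.span ℂ (Set.range (xv b k)) : Set H) = Set.univ)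
    (e : ℕ ≃ Idx) {R : ℕ → ℕ → ℂ} (hR : IsSummationMethod R)
    (hsum : ∀ f : H, ∃ σ : ℕ → H, (∀ᶠ j in atTop, Tendsto
      (fun K => ∑ l ∈ Finset.range K, R j l •
        ∑ n ∈ Finset.range (l + 1), phi b (e n) f • xv b k (e n)) atTop
        (𝓝 (σ j))) ∧ Tendsto σ atTop (𝓝 f)) : False := by
  obtain ⟨C, T, w, hC, hT, h1, h0⟩ := exists_multipliers (fun n => xv b k (e n))
    (fun n => phi b (e n)) (fun n m => by
      rw [phi_xv b hk]
      simp only [e.injective.eq_iff]) (by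
      have : Set.range (fun n => xv b k (e n)) = Set.range (xv b k) :=
        e.surjective.range_comp (xv b k)
      rw [this, hdense]) hR hsum
  have hinj : Function.Injective fun i : ℕ => e.symm (Sum.inr i) :=
    e.symm.injective.comp Sum.inr_injective
  have htail : Tendsto (fun J => ∑' i, 8 * C * dd (i + J)) atTop (𝓝 0) :=
    tendsto_sum_nat_add fun i => 8 * C * dd i
  obtain ⟨J, hJ⟩ := (htail.eventually (gt_mem_nhds (by norm_num : (0 : ℝ) < 1 / 2))).exists
  have key : ∀ j, ‖w j (e.symm (Sum.inr J))‖ ≤ 1 / 2 := by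
    intro j
    have hW : ∀ i, T j (xv b k i) = w j (e.symm i) • xv b k i := by
      intro i
      simpa using hT j (e.symm i)
    have h2 := dist_le_tsum_of_dist_le_of_tendsto (f := fun i : ℕ => w j (e.symm (Sum.inr i)))
      (fun i => 8 * C * dd i) (fun i => link' b hk (T j) (fun i => w j (e.symm i)) hW (hC j) i)
      (summable_dd.mul_left _) ((h0 j).comp hinj.nat_tendsto_atTop) J
    rw [dist_zero_right] at h2
    simp only [add_comm J] at h2
    linarith
  have h3 := le_of_tendsto' (h1 (e.symm (Sum.inr J))).norm key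
  norm_num at h3

end Pool.Agent.Lib.MP_e70876_an
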