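import Pool.Agent.Lib.MP_e70876_an.Link
import Pool.Agent.Lib.MP_e70876_an.Fourier

/-!
The example: the integers with the sparse nodes replaced by shifted half-integers.
-/

namespace Pool.Agent.Lib.MP_e70876_an

open MeasureTheory Filter Topology
open scoped InnerProductSpace

/-- The frequencies. -/
noncomputable def freq : Idx → ℂ
  | Sum.inl n => ((n.1 : ℝ) : ℂ)
  | Sum.inr j => ((lam j : ℝ) : ℂ)

theorem freq_injective : Function.Injective freq := by
  rintro (⟨n, hn⟩ | j) (⟨m, hm⟩ | i) h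
  · have h1 : (n : ℝ) = m := Complex.ofReal_injective h
    have h2 : n = m := by exact_mod_cast h1
    subst h2; rfl
  · have h1 : (n : ℝ) = lam i := Complex.ofReal_injective h
    exact absurd (by rw [h1, sub_self]) (lam_ne_int i n)
  · have h1 : lam j = (m : ℝ) := Complex.ofReal_injective h
    exact absurd (by rw [h1, sub_self]) (lam_ne_int j m)
  · have h1 : lam j = lam i := Complex.ofReal_injective h
    rw [lam_strictMono.injective h1]

/-- Normalizing coefficients. -/
noncomputable def coef : Idx → ℂ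
  | Sum.inl n => (((-1) ^ n.1 / sq2pi : ℝ) : ℂ)
  | Sum.inr j => ((LL j * sq2pi * (-1) ^ lamInt j / 2 : ℝ) : ℂ)

theorem coef_ne_zero (i : Idx) : coef i ≠ 0 := by
  have := sq2pi_pos
  rcases i with n | j
  · have h1 : ((-1 : ℝ) ^ n.1 / sq2pi) ≠ 0 :=
      div_ne_zero (zpow_ne_zero _ (by norm_num)) sq2pi_pos.ne'
    exact Complex.ofReal_ne_zero.2 h1
  · have h1 : (LL j * sq2pi * (-1) ^ lamInt j / 2 : ℝ) ≠ 0 :=
      div_ne_zero (mul_ne_zero (mul_ne_zero (LL_pos j).ne' sq2pi_pos.ne')
        (zpow_ne_zero _ (by norm_num))) (by norm_num)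
    exact Complex.ofReal_ne_zero.2 h1

/-- The normalized exponentials with the new frequencies. -/
noncomputable def kv (j : ℕ) : LTwo := coef (Sum.inr j) • expo (lam j)

theorem inner_kv (j : ℕ) (n : ℤ) : ⟪trigBasis n, kv j⟫_ℂ = (ker j n : ℝ) := by
  rw [trigBasis_apply]
  unfold trig kv coef ker
  rw [inner_smul_left, inner_smul_right, Complex.conj_ofReal,
    inner_expo_half n (lamInt j) (lam_eq j), zpow_sub₀ (by norm_num)]
  have h1 : (sq2pi : ℂ) ≠ 0 := by exact_mod_cast sq2pi_pos.ne'
  have h2 := neg_one_zpow_mul_self (lamInt j)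
  have h3 : ((-1 : ℂ) ^ n) ≠ 0 := zpow_ne_zero _ (by norm_num)
  have h4 : ((lam j : ℂ) - n) ≠ 0 := by exact_mod_cast lam_ne_int j n
  push_cast
  field_simp
  linear_combination (LL j : ℂ) * h2

theorem xv_eq (i : Idx) : xv trigBasis kv i = coef i • expo (freq i) := by
  rcases i with n | j
  · change trigBasis n.1 = _
    rw [trigBasis_apply]
    unfold trig coef freq
    simp
  · rfl

theorem expo_eq (i : Idx) : expo (freq i) = (coef i)⁻¹ • xv trigBasis kv i := by
  rw [xv_eq, smul_smul, inv_mul_cancel₀ (coef_ne_zero i), one_smul]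

/-- The biorthogonal system. -/
noncomputable def dual : ℂ → LTwo :=
  Function.extend freq
    (fun i => (starRingEnd ℂ) (coef i) • (InnerProductSpace.toDual ℂ LTwo).symm (phi trigBasis i))
    0

theorem inner_dual (i : Idx) (f : LTwo) : ⟪dual (freq i), f⟫_ℂ = coef i * phi trigBasis i f := by
  unfold dual
  rw [freq_injective.extend_apply, inner_smul_left, InnerProductSpace.toDual_symm_apply]
  simp

theorem term_eq (i : Idx) (f : LTwo) :
    ⟪dual (freq i), f⟫_ℂ • expo (freq i) = phi trigBasis i f • xv trigBasis kv i := by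
  rw [inner_dual, xv_eq, smul_smul, mul_comm]

theorem biorthogonal : IsBiorthogonal (Set.range freq) dual := by
  constructor
  · rintro _ ⟨i, rfl⟩
    rw [inner_dual, expo_eq, map_smul, phi_xv _ inner_kv]
    simp [coef_ne_zero]
  · rintro _ ⟨i, rfl⟩ _ ⟨i', rfl⟩ h
    have h1 : i ≠ i' := fun h' => h (by rw [h'])
    rw [inner_dual, expo_eq, map_smul, phi_xv _ inner_kv]
    simp [h1]

theorem hereditary : IsHereditarilyComplete (Set.range freq) dual := by
  intro f
  set K := Submodule.span ℂ ((fun z => ⟪dual z, f⟫_ℂ • expo z) '' Set.range freq) with hK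
  have h : f ∈ Kᗮᗮ := by
    rw [Submodule.mem_orthogonal]
    intro v hv
    refine synthesis trigBasis inner_kv f v fun i hi => ?_
    have h1 : phi trigBasis i f • xv trigBasis kv i ∈ K := by
      rw [← term_eq]
      exact Submodule.subset_span ⟨freq i, ⟨i, rfl⟩, rfl⟩
    have h2 := Submodule.inner_left_of_mem_orthogonal h1 hv
    rw [inner_smul_right] at h2
    exact (mul_eq_zero.1 h2).resolve_left hi
  rw [Submodule.orthogonal_orthogonal_eq_closure] at h
  exact h

theorem exact_of {Λ : Set ℂ} {g : ℂ → LTwo} (h1 : IsBiorthogonal Λ g)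
    (h2 : IsHereditarilyComplete Λ g) : IsExact Λ := by
  constructor
  · refine Set.eq_univ_of_forall fun f => closure_mono ?_ (h2 f)
    refine SetLike.coe_subset_coe.2 (Submodule.span_le.2 ?_)
    rintro _ ⟨z, hz, rfl⟩
    exact Submodule.smul_mem _ _ (Submodule.subset_span ⟨z, hz, rfl⟩)
  · intro z hz hmem
    have h3 : (Submodule.span ℂ (expo '' (Λ \ {z})) : Set LTwo) ⊆ {f | ⟪g z, f⟫_ℂ = 0} := by
      have : Submodule.span ℂ (expo '' (Λ \ {z})) ≤ LinearMap.ker (innerSL ℂ (g z)).toLinearMap := by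
        refine Submodule.span_le.2 ?_
        rintro _ ⟨w, hw, rfl⟩
        exact h1.2 z hz w hw.1 hw.2
      exact this
    have h4 := closure_minimal h3 (isClosed_eq (by fun_prop) continuous_const) hmem
    rw [Set.mem_ofPred_eq, h1.1 z hz] at h4
    exact one_ne_zero h4

theorem not_basis : ¬ IsLinearSummationBasis (Set.range freq) dual := by
  rintro ⟨e, R, hR, hsum⟩
  let e' : ℕ ≃ Idx := e.trans (Equiv.ofInjective freq freq_injective).symm
  have he : ∀ n, (e n : ℂ) = freq (e' n) := by
    intro n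
    exact (Equiv.apply_ofInjective_symm freq_injective (e n)).symm
  refine no_method trigBasis inner_kv ?_ e' hR fun f => ?_
  · refine Set.eq_univ_of_forall fun f => closure_mono ?_ (hereditary f)
    refine SetLike.coe_subset_coe.2 (Submodule.span_le.2 ?_)
    rintro _ ⟨_, ⟨i, rfl⟩, rfl⟩
    change ⟪dual (freq i), f⟫_ℂ • expo (freq i) ∈ _
    rw [term_eq]
    exact Submodule.smul_mem _ _ (Submodule.subset_span ⟨i, rfl⟩)
  · have h := hsum f
    simp only [he, term_eq] at h
    exact h

theorem main : ∃ (Λ : Set ℂ) (g : ℂ → LTwo), (∀ z ∈ Λ, z.im = 0) ∧ Nonempty (ℕ ≃ Λ) ∧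
    IsExact Λ ∧ IsBiorthogonal Λ g ∧ IsHereditarilyComplete Λ g ∧
    ¬ IsLinearSummationBasis Λ g := by
  refine ⟨Set.range freq, dual, ?_, ?_, exact_of biorthogonal hereditary, biorthogonal,
    hereditary, not_basis⟩
  · rintro _ ⟨i | j, rfl⟩ <;> exact Complex.ofReal_im _
  · obtain ⟨e⟩ : Nonempty (ℕ ≃ Idx) := nonempty_equiv_of_countable
    exact ⟨e.trans (Equiv.ofInjective freq freq_injective)⟩

end Pool.Agent.Lib.MP_e70876_an
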