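import Mathlib

/-!
The explicit parameters of the example: nodes `node j = (mm j)^2`, shifts `LL j`, and the new
frequencies `lam j = node j + LL j`, with all the inequalities needed later.
-/

namespace Pool.Agent.Lib.MP_e70876_an

open Filter Topology

/-- The rapidly growing sequence `m`. -/
def mm : ℕ → ℕ
  | 0 => 16384
  | j + 1 => mm j * (j + 3) ^ 7

/-- The real number `j + 3`. -/
def tt (j : ℕ) : ℝ := (j : ℝ) + 3

/-- The removed integers. -/
def node (j : ℕ) : ℤ := (mm j : ℤ) ^ 2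

/-- The integer part of the new frequency. -/
def lamInt (j : ℕ) : ℤ := (mm j : ℤ) ^ 2 + (mm j : ℤ) * ((j : ℤ) + 3) ^ 5

/-- The shifts. -/
noncomputable def LL (j : ℕ) : ℝ := (mm j : ℝ) * tt j ^ 5 + 1 / 2

/-- The new frequencies. -/
noncomputable def lam (j : ℕ) : ℝ := (mm j : ℝ) ^ 2 + LL j

/-- Lower cut-off. -/
def XX (j : ℕ) : ℕ := mm j ^ 2 * (j + 3) ^ 4

/-- Upper cut-off. -/
def YY (j : ℕ) : ℕ := mm j ^ 2 * (j + 3) ^ 10

theorem tt_ge (j : ℕ) : 3 ≤ tt j := by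
  unfold tt; have : (0 : ℝ) ≤ j := Nat.cast_nonneg j; linarith

theorem tt_pos (j : ℕ) : 0 < tt j := by have := tt_ge j; linarith

theorem tt_succ (j : ℕ) : tt (j + 1) = tt j + 1 := by unfold tt; push_cast; ring

theorem tt_succ_le (j : ℕ) : tt (j + 1) ≤ 2 * tt j := by
  rw [tt_succ]; have := tt_ge j; linarith

theorem tt_le_succ (j : ℕ) : tt j ≤ tt (j + 1) := by rw [tt_succ]; linarith

theorem mm_succ (j : ℕ) : (mm (j + 1) : ℝ) = mm j * tt j ^ 7 := by
  unfold tt; rw [mm]; push_cast; ring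

theorem tt_pow_ge (j k : ℕ) : (3 : ℝ) ^ k ≤ tt j ^ k :=
  pow_le_pow_left₀ (by norm_num) (tt_ge j) k

theorem tt_succ_pow_le (j k : ℕ) : tt (j + 1) ^ k ≤ 2 ^ k * tt j ^ k := by
  rw [← mul_pow]; exact pow_le_pow_left₀ (tt_pos _).le (tt_succ_le j) k

theorem mm_big (j : ℕ) : 64 * 4 ^ j * tt j ^ 5 ≤ (mm j : ℝ) := by
  induction j with
  | zero => unfold tt; rw [mm]; norm_num
  | succ j ih =>
    rw [mm_succ]
    have h1 := tt_succ_pow_le j 5
    have h2 := tt_pow_ge j 7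
    have h3 : (0 : ℝ) < 64 * 4 ^ j * tt j ^ 5 := by have := tt_pos j; positivity
    calc 64 * 4 ^ (j + 1) * tt (j + 1) ^ 5 ≤ 64 * 4 ^ (j + 1) * (2 ^ 5 * tt j ^ 5) := by gcongr
      _ = (64 * 4 ^ j * tt j ^ 5) * 128 := by ring
      _ ≤ (mm j : ℝ) * tt j ^ 7 := by
        apply mul_le_mul ih (by linarith) (by norm_num) (Nat.cast_nonneg _)

theorem mm_ge (j : ℕ) : 64 * tt j ^ 5 ≤ (mm j : ℝ) := by
  have h := mm_big j
  have h1 : (1 : ℝ) ≤ 4 ^ j := one_le_pow₀ (by norm_num)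
  have h2 : 0 < tt j ^ 5 := pow_pos (tt_pos j) 5
  nlinarith

theorem mm_ge_one (j : ℕ) : (1 : ℝ) ≤ mm j := by
  have h := mm_ge j
  have h2 := tt_pow_ge j 5
  linarith

theorem mm_pos (j : ℕ) : (0 : ℝ) < mm j := by have := mm_ge_one j; linarith

theorem LL_lower (j : ℕ) : (mm j : ℝ) * tt j ^ 5 ≤ LL j := by unfold LL; linarith

theorem LL_upper (j : ℕ) : LL j ≤ 2 * ((mm j : ℝ) * tt j ^ 5) := by
  unfold LL
  have h1 := mm_ge_one j
  have h2 := tt_pow_ge j 5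
  nlinarith

theorem LL_pos (j : ℕ) : 0 < LL j := by
  have h := LL_lower j
  have := mm_pos j
  have := tt_pos j
  have : 0 < (mm j : ℝ) * tt j ^ 5 := by positivity
  linarith

theorem LL_small (j : ℕ) : 32 * 4 ^ j * LL j ≤ (mm j : ℝ) ^ 2 := by
  have h := LL_upper j
  have h1 := mm_big j
  have h2 := mm_pos j
  calc 32 * 4 ^ j * LL j ≤ 32 * 4 ^ j * (2 * ((mm j : ℝ) * tt j ^ 5)) := by gcongr
    _ = (64 * 4 ^ j * tt j ^ 5) * mm j := by ring
    _ ≤ (mm j : ℝ) * mm j := by gcongr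
    _ = (mm j : ℝ) ^ 2 := by ring

theorem LL_le_sq (j : ℕ) : 32 * LL j ≤ (mm j : ℝ) ^ 2 := by
  have h := LL_small j
  have h1 : (1 : ℝ) ≤ 4 ^ j := one_le_pow₀ (by norm_num)
  have := LL_pos j
  nlinarith

theorem lam_lower (j : ℕ) : (mm j : ℝ) ^ 2 ≤ lam j := by
  unfold lam; have := LL_pos j; linarith

theorem lam_upper (j : ℕ) : lam j ≤ 2 * (mm j : ℝ) ^ 2 := by
  unfold lam; have := LL_le_sq j; have := LL_pos j; linarith

theorem lam_pos (j : ℕ) : 0 < lam j := by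
  have := lam_lower j; have := mm_pos j; have : (0 : ℝ) < (mm j : ℝ) ^ 2 := by positivity
  linarith

theorem lam_eq (j : ℕ) : lam j = (lamInt j : ℝ) + 1 / 2 := by
  unfold lam LL lamInt tt; push_cast; ring

theorem node_cast (j : ℕ) : ((node j : ℤ) : ℝ) = (mm j : ℝ) ^ 2 := by
  unfold node; push_cast; ring

theorem lam_sub_node (j : ℕ) : lam j - (node j : ℝ) = LL j := by
  rw [node_cast]; unfold lam; ring

theorem half_le_abs_lam_sub (j : ℕ) (n : ℤ) : 1 / 2 ≤ |lam j - n| := by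
  rw [lam_eq]
  rcases le_or_gt n (lamInt j) with h | h
  · have : (n : ℝ) ≤ lamInt j := by exact_mod_cast h
    rw [abs_of_nonneg (by linarith)]; linarith
  · have : (lamInt j : ℝ) + 1 ≤ n := by exact_mod_cast h
    rw [abs_of_nonpos (by linarith)]; linarith

theorem lam_ne_int (j : ℕ) (n : ℤ) : lam j - n ≠ 0 := by
  intro h
  have := half_le_abs_lam_sub j n
  rw [h, abs_zero] at this; linarith

theorem sq_succ (j : ℕ) : (mm (j + 1) : ℝ) ^ 2 = (mm j : ℝ) ^ 2 * tt j ^ 14 := by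
  rw [mm_succ]; ring

theorem sq_succ_ge (j : ℕ) : 8 * (mm j : ℝ) ^ 2 ≤ (mm (j + 1) : ℝ) ^ 2 := by
  rw [sq_succ]
  have h := tt_pow_ge j 14
  have : (0 : ℝ) ≤ (mm j : ℝ) ^ 2 := by positivity
  nlinarith

theorem sq_mono : StrictMono fun j => (mm j : ℝ) ^ 2 := by
  apply strictMono_nat_of_lt_succ
  intro j
  have := sq_succ_ge j
  have := mm_pos j
  have : (0 : ℝ) < (mm j : ℝ) ^ 2 := by positivity
  linarith

theorem sq_ge_of_lt {i j : ℕ} (h : i < j) : 8 * (mm i : ℝ) ^ 2 ≤ (mm j : ℝ) ^ 2 :=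
  (sq_succ_ge i).trans (sq_mono.monotone h)

theorem node_strictMono : StrictMono node := by
  intro i j h
  have := sq_mono h
  simp only [← node_cast] at this
  exact_mod_cast this

theorem lam_strictMono : StrictMono lam := by
  apply strictMono_nat_of_lt_succ
  intro j
  have := sq_succ_ge j
  have := lam_upper j
  have := lam_lower (j + 1)
  have := mm_pos j
  have : (0 : ℝ) < (mm j : ℝ) ^ 2 := by positivity
  linarith

theorem LL_succ_ge (j : ℕ) : 2 * LL j ≤ LL (j + 1) := by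
  have h1 := LL_upper j
  have h2 := LL_lower (j + 1)
  rw [mm_succ] at h2
  have h3 := tt_pow_ge j 7
  have h4 : tt j ^ 5 ≤ tt (j + 1) ^ 5 := pow_le_pow_left₀ (tt_pos j).le (tt_le_succ j) 5
  have h5 : 0 < (mm j : ℝ) * tt j ^ 5 := by have := mm_pos j; have := tt_pos j; positivity
  have h6 : (mm j : ℝ) * tt j ^ 7 * tt j ^ 5 ≤ (mm j : ℝ) * tt j ^ 7 * tt (j + 1) ^ 5 := by
    have := mm_pos j; have := tt_pos j; gcongr
  nlinarith

theorem LL_mono : Monotone LL := by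
  apply monotone_nat_of_le_succ
  intro j
  have := LL_succ_ge j
  have := LL_pos j
  linarith

/-- The ratio `LL j / lam j`. -/
noncomputable def rr (j : ℕ) : ℝ := LL j / lam j

theorem rr_pos (j : ℕ) : 0 < rr j := div_pos (LL_pos j) (lam_pos j)

theorem rr_succ_le (j : ℕ) : rr (j + 1) ≤ 64 / ((mm j : ℝ) * tt j ^ 2) := by
  unfold rr
  have hm := mm_pos j
  have ht := tt_pos j
  rw [div_le_div_iff₀ (lam_pos _) (by positivity)]
  have h1 := LL_upper (j + 1)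
  have h2 := lam_lower (j + 1)
  have h3 := tt_succ_pow_le j 5
  rw [mm_succ] at h1 h2
  calc LL (j + 1) * ((mm j : ℝ) * tt j ^ 2)
      ≤ 2 * ((mm j : ℝ) * tt j ^ 7 * (2 ^ 5 * tt j ^ 5)) * ((mm j : ℝ) * tt j ^ 2) := by
        gcongr
        exact h1.trans (by gcongr)
    _ = 64 * ((mm j : ℝ) * tt j ^ 7) ^ 2 := by ring
    _ ≤ 64 * lam (j + 1) := by gcongr

theorem rr_lower (j : ℕ) : tt j ^ 5 / (2 * (mm j : ℝ)) ≤ rr j := by
  unfold rr
  have hm := mm_pos j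
  have ht := tt_pos j
  rw [div_le_div_iff₀ (by positivity) (lam_pos _)]
  have h1 := LL_lower j
  have h2 := lam_upper j
  calc tt j ^ 5 * lam j ≤ tt j ^ 5 * (2 * (mm j : ℝ) ^ 2) := by gcongr
    _ = ((mm j : ℝ) * tt j ^ 5) * (2 * (mm j : ℝ)) := by ring
    _ ≤ LL j * (2 * (mm j : ℝ)) := by gcongr

theorem rr_succ_half (j : ℕ) : 2 * rr (j + 1) ≤ rr j := by
  have h1 := rr_succ_le j
  have h2 := rr_lower j
  have hm := mm_pos j
  have ht := tt_pos j
  have h3 : 2 * (64 / ((mm j : ℝ) * tt j ^ 2)) ≤ tt j ^ 5 / (2 * (mm j : ℝ)) := by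
    rw [← mul_div_assoc, div_le_div_iff₀ (by positivity) (by positivity)]
    have h := tt_pow_ge j 7
    calc 2 * 64 * (2 * (mm j : ℝ)) = 256 * (mm j : ℝ) := by ring
      _ ≤ tt j ^ 7 * (mm j : ℝ) := by gcongr; linarith
      _ = _ := by ring
  linarith

theorem rr_le_one (j : ℕ) : rr j ≤ 1 := by
  unfold rr
  rw [div_le_one (lam_pos j)]
  unfold lam
  have : (0 : ℝ) ≤ (mm j : ℝ) ^ 2 := by positivity
  linarith

theorem rr_add_le (j i : ℕ) : rr (i + j) ≤ rr j * (1 / 2) ^ i := by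
  induction i with
  | zero => simp
  | succ i ih =>
    have h := rr_succ_half (i + j)
    rw [show i + 1 + j = i + j + 1 by ring, pow_succ]
    linarith

theorem summable_rr : Summable rr := by
  refine Summable.of_nonneg_of_le (fun i => (rr_pos i).le) (fun i => ?_)
    (summable_geometric_two.mul_left (rr 0))
  simpa using rr_add_le 0 i

theorem XX_cast (j : ℕ) : (XX j : ℝ) = (mm j : ℝ) ^ 2 * tt j ^ 4 := by
  unfold XX tt; push_cast; ring

theorem YY_cast (j : ℕ) : (YY j : ℝ) = (mm j : ℝ) ^ 2 * tt j ^ 10 := by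
  unfold YY tt; push_cast; ring

theorem two_lam_le_XX (j : ℕ) : 2 * lam j ≤ XX j := by
  rw [XX_cast]
  have h1 := lam_upper j
  have h2 := tt_pow_ge j 4
  have : (0 : ℝ) ≤ (mm j : ℝ) ^ 2 := by positivity
  nlinarith

theorem XX_le_YY (j : ℕ) : (XX j : ℝ) ≤ YY j := by
  rw [XX_cast, YY_cast]
  have h := tt_ge j
  gcongr
  · linarith
  · norm_num

theorem XX_ge_one (j : ℕ) : (1 : ℝ) ≤ XX j := by
  rw [XX_cast]
  have h1 := mm_ge_one j
  have h2 := tt_pow_ge j 4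
  have : (1 : ℝ) ≤ (mm j : ℝ) ^ 2 := one_le_pow₀ h1
  nlinarith

theorem two_YY_le (j : ℕ) : 2 * (YY j : ℝ) ≤ lam (j + 1) := by
  have h1 := lam_lower (j + 1)
  rw [sq_succ] at h1
  rw [YY_cast]
  have h2 := tt_pow_ge j 4
  have hm := mm_pos j
  have ht := tt_pos j
  have h3 : (0 : ℝ) ≤ (mm j : ℝ) ^ 2 * tt j ^ 10 := by positivity
  calc 2 * ((mm j : ℝ) ^ 2 * tt j ^ 10) ≤ tt j ^ 4 * ((mm j : ℝ) ^ 2 * tt j ^ 10) := by
        gcongr; linarith
    _ = (mm j : ℝ) ^ 2 * tt j ^ 14 := by ring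
    _ ≤ _ := h1

theorem YY_le_XX_succ (j : ℕ) : YY j ≤ XX (j + 1) := by
  have h1 := two_YY_le j
  have h2 := two_lam_le_XX (j + 1)
  have h3 := lam_pos (j + 1)
  have h4 : (0 : ℝ) ≤ YY j := Nat.cast_nonneg _
  have : (YY j : ℝ) ≤ XX (j + 1) := by linarith
  exact_mod_cast this

theorem XX_mono : Monotone XX := by
  apply monotone_nat_of_le_succ
  intro j
  have h1 : XX j ≤ YY j := by exact_mod_cast XX_le_YY j
  exact h1.trans (YY_le_XX_succ j)

theorem le_XX (j : ℕ) : j ≤ XX j := by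
  have h1 := mm_ge_one j
  have h2 : (1 : ℝ) ≤ (mm j : ℝ) ^ 2 := one_le_pow₀ h1
  have h3 : tt j ≤ tt j ^ 4 := le_self_pow₀ (by have := tt_ge j; linarith) (by norm_num)
  have h4 : (j : ℝ) ≤ tt j := by unfold tt; linarith
  have h5 := tt_pos j
  have : (j : ℝ) ≤ XX j := by
    rw [XX_cast]
    have : 0 ≤ tt j ^ 4 := by positivity
    nlinarith
  exact_mod_cast this

theorem LL_sq_le_YY (j : ℕ) : LL j ^ 2 ≤ 4 * YY j := by
  rw [YY_cast]
  have h := LL_upper j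
  have := LL_pos j
  calc LL j ^ 2 ≤ (2 * ((mm j : ℝ) * tt j ^ 5)) ^ 2 := by gcongr
    _ = _ := by ring

theorem XX_rr (j : ℕ) : (XX j : ℝ) * rr (j + 1) ^ 2 ≤ 4096 := by
  rw [XX_cast]
  have h := rr_succ_le j
  have hm := mm_pos j
  have ht := tt_pos j
  have := rr_pos (j + 1)
  calc (mm j : ℝ) ^ 2 * tt j ^ 4 * rr (j + 1) ^ 2
      ≤ (mm j : ℝ) ^ 2 * tt j ^ 4 * (64 / ((mm j : ℝ) * tt j ^ 2)) ^ 2 := by gcongr
    _ = 4096 := by field_simp; norm_num

theorem YY_rr (j : ℕ) : (YY j : ℝ) ^ 3 * rr (j + 1) ^ 2 ≤ 4096 * lam (j + 1) ^ 2 := by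
  rw [YY_cast]
  have h := rr_succ_le j
  have hm := mm_pos j
  have ht := tt_pos j
  have := rr_pos (j + 1)
  have h1 := lam_lower (j + 1)
  rw [sq_succ] at h1
  have h2 : (1 : ℝ) ≤ tt j ^ 2 := one_le_pow₀ (by have := tt_ge j; linarith)
  calc ((mm j : ℝ) ^ 2 * tt j ^ 10) ^ 3 * rr (j + 1) ^ 2
      ≤ ((mm j : ℝ) ^ 2 * tt j ^ 10) ^ 3 * (64 / ((mm j : ℝ) * tt j ^ 2)) ^ 2 := by gcongr
    _ = 4096 * ((mm j : ℝ) ^ 4 * tt j ^ 26) * 1 := by field_simp; norm_num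
    _ ≤ 4096 * ((mm j : ℝ) ^ 4 * tt j ^ 26) * tt j ^ 2 := by gcongr
    _ = 4096 * ((mm j : ℝ) ^ 2 * tt j ^ 14) ^ 2 := by ring
    _ ≤ _ := by gcongr

theorem LL_lam_XX (j : ℕ) : LL j ^ 2 * lam j ^ 2 ≤ 16 * (XX j : ℝ) ^ 3 := by
  rw [XX_cast]
  have h1 := LL_upper j
  have h2 := lam_upper j
  have := LL_pos j
  have := lam_pos j
  have hm := mm_pos j
  have ht := tt_pos j
  have h3 : (1 : ℝ) ≤ tt j ^ 2 := one_le_pow₀ (by have := tt_ge j; linarith)
  calc LL j ^ 2 * lam j ^ 2 ≤ (2 * ((mm j : ℝ) * tt j ^ 5)) ^ 2 * (2 * (mm j : ℝ) ^ 2) ^ 2 := by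
        gcongr
    _ = 16 * ((mm j : ℝ) ^ 6 * tt j ^ 10) * 1 := by ring
    _ ≤ 16 * ((mm j : ℝ) ^ 6 * tt j ^ 10) * tt j ^ 2 := by gcongr
    _ = _ := by ring

theorem LL_rr (j : ℕ) : LL j * rr (j + 1) ≤ 128 * tt j ^ 3 := by
  have h1 := LL_upper j
  have h2 := rr_succ_le j
  have hm := mm_pos j
  have ht := tt_pos j
  have := rr_pos (j + 1)
  calc LL j * rr (j + 1) ≤ (2 * ((mm j : ℝ) * tt j ^ 5)) * (64 / ((mm j : ℝ) * tt j ^ 2)) := by
        gcongr
    _ = 128 * tt j ^ 3 := by field_simp; norm_num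

/-- Off-diagonal entries of the node matrix are tiny. -/
theorem offdiag_le {j k : ℕ} (h : k ≠ j) :
    LL j / |lam j - node k| ≤ (1 / 16) * (1 / 2) ^ j * (1 / 2) ^ k := by
  have hL := LL_pos j
  have key : ∀ i : ℕ, j ≤ i → k ≤ i → LL j ≤ LL i → (mm i : ℝ) ^ 2 / 2 ≤ |lam j - node k| →
      LL j / |lam j - node k| ≤ (1 / 16) * (1 / 2) ^ j * (1 / 2) ^ k := by
    intro i hji hki hLi hd
    have hm := mm_pos i
    have h1 := LL_small i
    have h2 : ((1 : ℝ) / 2) ^ i ≤ (1 / 2) ^ j :=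
      pow_le_pow_of_le_one (by norm_num) (by norm_num) hji
    have h3 : ((1 : ℝ) / 2) ^ i ≤ (1 / 2) ^ k :=
      pow_le_pow_of_le_one (by norm_num) (by norm_num) hki
    have h4 : ((1 : ℝ) / 2) ^ i * (1 / 2) ^ i * 4 ^ i = 1 := by
      rw [← mul_pow, ← mul_pow]; norm_num
    calc LL j / |lam j - node k| ≤ LL i / ((mm i : ℝ) ^ 2 / 2) := by
          gcongr
          exact (LL_pos i).le
      _ ≤ LL i / ((32 * 4 ^ i * LL i) / 2) := by
          have := LL_pos i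
          gcongr
      _ = (1 / 16) * (1 / 2) ^ i * (1 / 2) ^ i := by
          have := LL_pos i
          have h5 : (0 : ℝ) < 4 ^ i := by positivity
          rw [div_eq_iff (by positivity)]
          linear_combination (-LL i) * h4
      _ ≤ _ := by gcongr
  rcases lt_or_gt_of_ne h with hk | hk
  · refine key j le_rfl hk.le le_rfl ?_
    have h1 := sq_ge_of_lt hk
    have h2 := lam_lower j
    have h3 : (0 : ℝ) ≤ (mm k : ℝ) ^ 2 := by positivity
    rw [node_cast, abs_of_nonneg (by linarith)]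
    linarith
  · refine key k hk.le le_rfl (LL_mono hk.le) ?_
    have h1 := sq_ge_of_lt hk
    have h2 := lam_upper j
    have h3 : (0 : ℝ) ≤ (mm j : ℝ) ^ 2 := by positivity
    rw [node_cast, abs_of_nonpos (by linarith)]
    linarith

theorem LL_div_le (j : ℕ) (n : ℤ) : LL j / |lam j - n| ≤ (4 * |(n : ℝ)| + 2) * rr j := by
  have h1 := half_le_abs_lam_sub j n
  have hl := lam_pos j
  have hL := LL_pos j
  have hn : 0 ≤ |(n : ℝ)| := abs_nonneg _
  have h2 : lam j ≤ (4 * |(n : ℝ)| + 2) * |lam j - n| := by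
    rcases le_or_gt (2 * |(n : ℝ)|) (lam j) with h | h
    · have : lam j / 2 ≤ |lam j - n| := by
        have := le_abs_self (n : ℝ)
        have := le_abs_self (lam j - n)
        linarith
      nlinarith
    · nlinarith
  unfold rr
  rw [← mul_div_assoc, div_le_div_iff₀ (by linarith) hl]
  nlinarith

end Pool.Agent.Lib.MP_e70876_an
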